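import Pool.Agent.Lib_helper33.Ore.Defs

/-!
# The absorption closure
-/

set_option autoImplicit false
set_option linter.unusedSectionVars false

open scoped Classical
open Finset

namespace Pool.Agent.Ore

variable {V : Type} [Fintype V] (G : SimpleGraph V) {K : ℕ}

/-- a colouring of all vertices but one: only `x` is uncoloured, proper on the rest -/
structure PCol (x : V) (c : V → Option (Fin K)) : Prop where
  none : ∀ v, c v = none ↔ v = x
  proper : ∀ a b, G.Adj a b → c a ≠ c b

/-- `c'` moves the vertices of `U` into the classes of `T` and otherwise only changes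
the classes of `T` among themselves -/
structure Mod (c : V → Option (Fin K)) (U : Finset V) (T : Finset (Fin K))
    (c' : V → Option (Fin K)) : Prop where
  proper : ∀ a b, G.Adj a b → c' a ≠ c' b
  moved : ∀ u ∈ U, ∃ i ∈ T, c' u = some i
  stay : ∀ u, ∀ i ∈ T, c u = some i → ∃ j ∈ T, c' u = some j
  same : ∀ u, u ∉ U → (∀ i ∈ T, c u ≠ some i) → c' u = c u

theorem Mod.empty (x : V) (c : V → Option (Fin K)) (h : PCol G x c) : Mod G c ∅ ∅ c :=
  ⟨h.proper, by simp, by simp, fun _ _ _ => rfl⟩

theorem Mod.union {c : V → Option (Fin K)} {U₁ U₂ : Finset V} {T₁ T₂ : Finset (Fin K)}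
    {c₁ c₂ : V → Option (Fin K)} (h₁ : Mod G c U₁ T₁ c₁) (h₂ : Mod G c U₂ T₂ c₂)
    (hT : Disjoint T₁ T₂) :
    ∃ c', Mod G c (U₁ ∪ U₂) (T₁ ∪ T₂) c' := by
  classical
  -- part 1: vertices governed by `c₁`
  let P : V → Prop := fun u => u ∈ U₁ ∨ ∃ i ∈ T₁, c u = some i
  have hP : ∀ u, P u → ∃ i ∈ T₁, c₁ u = some i := by
    rintro u (h | ⟨i, hi, hu⟩)
    · exact h₁.moved u h
    · exact h₁.stay u i hi hu
  have hN : ∀ u, ¬ P u → ∀ i ∈ T₁, c₂ u ≠ some i := by
    intro u hu i hi hc
    simp only [P, not_or, not_exists, not_and] at hu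
    by_cases hU2 : u ∈ U₂
    · obtain ⟨j, hj, hj2⟩ := h₂.moved u hU2
      rw [hj2] at hc
      injection hc with hc
      subst hc
      exact (Finset.disjoint_left.1 hT hi) hj
    · by_cases hc2 : ∃ j ∈ T₂, c u = some j
      · obtain ⟨j, hj, hj2⟩ := hc2
        obtain ⟨l, hl, hl2⟩ := h₂.stay u j hj hj2
        rw [hl2] at hc
        injection hc with hc
        subst hc
        exact (Finset.disjoint_left.1 hT hi) hl
      · push Not at hc2
        rw [h₂.same u hU2 hc2] at hc
        exact hu.2 i hi hc
  refine ⟨fun u => if P u then c₁ u else c₂ u, ?_, ?_, ?_, ?_⟩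
  · intro a b hab
    by_cases ha : P a <;> by_cases hb : P b
    · simp only [ha, hb, if_true]; exact h₁.proper a b hab
    · simp only [ha, hb, if_true, if_false]
      obtain ⟨i, hi, hi2⟩ := hP a ha
      rw [hi2]
      exact fun h => hN b hb i hi h.symm
    · simp only [ha, hb, if_true, if_false]
      obtain ⟨i, hi, hi2⟩ := hP b hb
      rw [hi2]
      exact hN a ha i hi
    · simp only [ha, hb, if_false]; exact h₂.proper a b hab
  · intro u hu
    by_cases hPu : P u
    · simp only [hPu, if_true]
      obtain ⟨i, hi, hi2⟩ := hP u hPu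
      exact ⟨i, Finset.mem_union_left _ hi, hi2⟩
    · simp only [hPu, if_false]
      have : u ∈ U₂ := by
        rcases Finset.mem_union.1 hu with h | h
        · exact absurd (Or.inl h) hPu
        · exact h
      obtain ⟨i, hi, hi2⟩ := h₂.moved u this
      exact ⟨i, Finset.mem_union_right _ hi, hi2⟩
  · intro u i hi hu
    by_cases hPu : P u
    · simp only [hPu, if_true]
      obtain ⟨j, hj, hj2⟩ := hP u hPu
      exact ⟨j, Finset.mem_union_left _ hj, hj2⟩
    · simp only [hPu, if_false]
      have : i ∈ T₂ := by
        rcases Finset.mem_union.1 hi with h | h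
        · exact absurd (Or.inr ⟨i, h, hu⟩) hPu
        · exact h
      obtain ⟨j, hj, hj2⟩ := h₂.stay u i this hu
      exact ⟨j, Finset.mem_union_right _ hj, hj2⟩
  · intro u hu hc
    have hPu : ¬ P u := by
      rintro (h | ⟨i, hi, hi2⟩)
      · exact hu (Finset.mem_union_left _ h)
      · exact hc i (Finset.mem_union_left _ hi) hi2
    simp only [hPu, if_false]
    exact h₂.same u (fun h => hu (Finset.mem_union_right _ h))
      (fun i hi => hc i (Finset.mem_union_right _ hi))

/-- the class `i` -/
noncomputable def cls (c : V → Option (Fin K)) (i : Fin K) : Finset V := univ.filter fun v => c v = some i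

/-- neighbours of `v` in the class `i` -/
noncomputable def nb (c : V → Option (Fin K)) (v : V) (i : Fin K) : Finset V :=
  univ.filter fun u => G.Adj v u ∧ c u = some i

/-- classes of size at most `L`, not the class of `v`, in which all neighbours of `v` lie
in `M` -/
noncomputable def good (c : V → Option (Fin K)) (L : ℕ) (M : Finset V) (v : V) : Finset (Fin K) :=
  univ.filter fun i => (cls c i).card ≤ L ∧ c v ≠ some i ∧ nb G c v i ⊆ M

/-- the closure -/
noncomputable def clo (c : V → Option (Fin K)) (x : V) (L τ : ℕ) : ℕ → Finset V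
  | 0 => ∅
  | t + 1 => univ.filter fun v => v ≠ x ∧ τ ≤ (good G c L (clo c x L τ t) v).card

/-- number of classes used at level `t` -/
def Bd (L : ℕ) : ℕ → ℕ
  | 0 => 0
  | t + 1 => 2 + L * Bd L t

theorem clo_succ_mono (c : V → Option (Fin K)) (x : V) (L τ t : ℕ) :
    clo G c x L τ t ⊆ clo G c x L τ (t + 1) := by
  induction t with
  | zero => simp [clo]
  | succ t ih =>
    intro v hv
    simp only [clo, mem_filter, mem_univ, true_and] at hv ⊢
    refine ⟨hv.1, hv.2.trans (card_le_card ?_)⟩
    intro i hi
    simp only [good, mem_filter, mem_univ, true_and] at hi ⊢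
    refine ⟨hi.1, hi.2.1, hi.2.2.trans ?_⟩
    exact ih

/-- the absorption step: if the neighbours of `v` in the class `i` can be moved away then `v` can
be moved into the class `i` -/
theorem absorb_step {c : V → Option (Fin K)} {v : V} {i : Fin K}
    (hvi : c v ≠ some i) {T : Finset (Fin K)} (hiT : i ∉ T) (hvT : ∀ j ∈ T, c v ≠ some j)
    {c' : V → Option (Fin K)} (h : Mod G c (nb G c v i) T c') :
    Mod G c {v} (insert i T) (fun u => if u = v then some i else c' u) := by
  have key : ∀ b, G.Adj v b → c' b ≠ some i := by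
    intro b hb hbi
    by_cases h1 : c b = some i
    · obtain ⟨j, hj, hj2⟩ := h.moved b (by simp [nb, hb, h1])
      rw [hj2] at hbi
      injection hbi with hbi
      subst hbi
      exact hiT hj
    · by_cases h2 : ∃ j ∈ T, c b = some j
      · obtain ⟨j, hj, hj2⟩ := h2
        obtain ⟨l, hl, hl2⟩ := h.stay b j hj hj2
        rw [hl2] at hbi
        injection hbi with hbi
        subst hbi
        exact hiT hl
      · push Not at h2
        rw [h.same b (by simp [nb, h1]) h2] at hbi
        exact h1 hbi
  refine ⟨?_, ?_, ?_, ?_⟩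
  · intro a b hab
    by_cases ha : a = v <;> by_cases hb : b = v
    · subst ha; subst hb; exact absurd hab (G.irrefl)
    · subst ha
      simp only [if_true, hb, if_false]
      exact fun h => key b hab h.symm
    · subst hb
      simp only [if_true, ha, if_false]
      exact key a hab.symm
    · simp only [ha, hb, if_false]
      exact h.proper a b hab
  · intro u hu
    rw [Finset.mem_singleton] at hu
    subst hu
    exact ⟨i, Finset.mem_insert_self _ _, by simp⟩
  · intro u j hj hu
    by_cases huv : u = v
    · exact ⟨i, Finset.mem_insert_self _ _, by simp [huv]⟩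
    · simp only [huv, if_false]
      rcases Finset.mem_insert.1 hj with rfl | hj
      · by_cases hn : u ∈ nb G c v j
        · obtain ⟨l, hl, hl2⟩ := h.moved u hn
          exact ⟨l, Finset.mem_insert_of_mem hl, hl2⟩
        · refine ⟨j, Finset.mem_insert_self _ _, ?_⟩
          rw [h.same u hn, hu]
          intro l hl hul
          rw [hu] at hul
          injection hul with hul
          subst hul
          exact hiT hl
      · obtain ⟨l, hl, hl2⟩ := h.stay u j hj hu
        exact ⟨l, Finset.mem_insert_of_mem hl, hl2⟩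
  · intro u hu hcu
    rw [Finset.mem_singleton] at hu
    simp only [hu, if_false]
    apply h.same
    · intro hn
      simp only [nb, mem_filter, mem_univ, true_and] at hn
      exact hcu i (Finset.mem_insert_self _ _) hn.2
    · exact fun j hj => hcu j (Finset.mem_insert_of_mem hj)

/-- movability of a vertex with a bounded number of classes, avoiding a set `F` of classes -/
def Movable (c : V → Option (Fin K)) (v : V) (b : ℕ) (F : Finset (Fin K)) : Prop :=
  ∃ T : Finset (Fin K), Disjoint T F ∧ T.card ≤ b ∧ (∀ j ∈ T, c v ≠ some j) ∧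
    ∃ c', Mod G c {v} T c'

/-- moving a whole set of vertices of one class -/
theorem movable_set {x : V} {c : V → Option (Fin K)} (hc : PCol G x c) {b τ : ℕ}
    (U : Finset V)
    (hm : ∀ u ∈ U, ∀ F : Finset (Fin K), F.card + b ≤ τ → Movable G c u b F)
    (F : Finset (Fin K)) (hF : F.card + U.card * b ≤ τ) :
    ∃ T : Finset (Fin K), Disjoint T F ∧ T.card ≤ U.card * b ∧ ∃ c', Mod G c U T c' := by
  induction U using Finset.induction_on with
  | empty => exact ⟨∅, by simp, by simp, c, Mod.empty G x c hc⟩
  | insert u U huU ih =>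
    rw [card_insert_of_notMem huU] at hF ⊢
    obtain ⟨T, hT1, hT2, c₁, hc₁⟩ := ih
      (fun w hw => hm w (mem_insert_of_mem hw)) (by nlinarith)
    have hcard : (F ∪ T).card + b ≤ τ := by
      have := card_union_le F T
      nlinarith
    obtain ⟨T', hT'1, hT'2, hT'3, c₂, hc₂⟩ := hm u (mem_insert_self _ _) (F ∪ T) hcard
    have hd1 : Disjoint T' F := Disjoint.mono_right subset_union_left hT'1
    have hd2 : Disjoint T' T := Disjoint.mono_right subset_union_right hT'1
    obtain ⟨c', hc'⟩ := Mod.union G hc₂ hc₁ hd2
    refine ⟨T' ∪ T, ?_, ?_, c', ?_⟩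
    · exact Finset.disjoint_union_left.2 ⟨hd1, hT1⟩
    · have := card_union_le T' T
      nlinarith
    · rw [Finset.insert_eq]
      exact hc'

/-- the main absorption lemma -/
theorem movable_of_good {x : V} {c : V → Option (Fin K)} (hc : PCol G x c) {L τ b : ℕ}
    {M : Finset V} (hM : ∀ u ∈ M, ∀ F : Finset (Fin K), F.card + b ≤ τ → Movable G c u b F)
    {v : V} (F : Finset (Fin K)) (hF : F.card + (2 + L * b) ≤ τ)
    (hg : τ ≤ (good G c L M v).card) : Movable G c v (2 + L * b) F := by
  obtain ⟨i, hi, hiF⟩ : ∃ i ∈ good G c L M v, i ∉ F := by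
    by_contra hcon
    push Not at hcon
    have := card_le_card (show good G c L M v ⊆ F from hcon)
    omega
  simp only [good, mem_filter, mem_univ, true_and] at hi
  obtain ⟨hi1, hi2, hi3⟩ := hi
  have hnb : (nb G c v i).card ≤ L := by
    refine (card_le_card ?_).trans hi1
    intro u hu
    simp only [nb, cls, mem_filter, mem_univ, true_and] at hu ⊢
    exact hu.2
  -- forbid also the class `i` and the class of `v`
  let F' : Finset (Fin K) := insert i (F ∪ univ.filter fun j => c v = some j)
  have hF1 : (univ.filter fun j => c v = some j).card ≤ 1 := by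
    rw [card_le_one]
    intro a ha b hb
    simp only [mem_filter, mem_univ, true_and] at ha hb
    rw [ha] at hb
    injection hb
  have hF' : F'.card ≤ F.card + 2 := by
    have h1 := card_insert_le i (F ∪ univ.filter fun j => c v = some j)
    have h2 := card_union_le F (univ.filter fun j => c v = some j)
    exact h1.trans (by omega)
  have hmul : (nb G c v i).card * b ≤ L * b := Nat.mul_le_mul_right b hnb
  obtain ⟨T, hT1, hT2, c', hc'⟩ := movable_set G hc (b := b) (τ := τ) (nb G c v i)
    (fun u hu => hM u (hi3 hu)) F' (by omega)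
  have hiT : i ∉ T := fun h => (Finset.disjoint_left.1 hT1 h) (mem_insert_self _ _)
  have hvT : ∀ j ∈ T, c v ≠ some j := by
    intro j hj hvj
    apply Finset.disjoint_left.1 hT1 hj
    apply mem_insert_of_mem
    apply mem_union_right
    simpa using hvj
  refine ⟨insert i T, ?_, ?_, ?_, _, absorb_step G hi2 hiT hvT hc'⟩
  · rw [Finset.disjoint_insert_left]
    refine ⟨hiF, Disjoint.mono_right ?_ hT1⟩
    intro j hj
    exact mem_insert_of_mem (mem_union_left _ hj)
  · have := card_insert_le i T
    omega
  · intro j hj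
    rcases mem_insert.1 hj with rfl | hj
    · exact hi2
    · exact hvT j hj

theorem movable_clo {x : V} {c : V → Option (Fin K)} (hc : PCol G x c) {L τ : ℕ} (t : ℕ) :
    ∀ v ∈ clo G c x L τ t, ∀ F : Finset (Fin K), F.card + Bd L t ≤ τ →
      Movable G c v (Bd L t) F := by
  induction t with
  | zero => intro v hv; simp [clo] at hv
  | succ t ih =>
    intro v hv F hF
    simp only [clo, mem_filter, mem_univ, true_and] at hv
    exact movable_of_good G hc ih F hF hv.2

/-- if `G` is not `K`-colourable, the uncoloured vertex is stuck -/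
theorem x_stuck (hG : ¬ G.Colorable K) {x : V} {c : V → Option (Fin K)} (hc : PCol G x c)
    {L τ : ℕ} (t : ℕ) (ht : Bd L (t + 1) ≤ τ) :
    (good G c L (clo G c x L τ t) x).card < τ := by
  by_contra hcon
  push Not at hcon
  obtain ⟨T, -, -, -, c', hc'⟩ := movable_of_good G hc (movable_clo G hc (L := L) (τ := τ) t)
    (v := x) ∅ (by simpa [Bd] using ht) hcon
  apply hG
  have hsome : ∀ v, ∃ j, c' v = some j := by
    intro v
    by_cases hv : v = x
    · subst hv
      obtain ⟨j, -, hj⟩ := hc'.moved v (by simp)
      exact ⟨j, hj⟩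
    · by_cases h2 : ∃ i ∈ T, c v = some i
      · obtain ⟨i, hi, hi2⟩ := h2
        obtain ⟨j, -, hj⟩ := hc'.stay v i hi hi2
        exact ⟨j, hj⟩
      · push Not at h2
        rw [hc'.same v (by simpa using hv) h2]
        exact Option.ne_none_iff_exists'.1 (fun h => hv ((hc.none v).1 h))
  choose f hf using hsome
  refine ⟨SimpleGraph.Coloring.mk f ?_⟩
  intro a b hab h
  apply hc'.proper a b hab
  rw [hf, hf, h]

end Pool.Agent.Ore
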