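import Mathlib

/-!
# Arithmetic of `h m = (m mod k) (k - m mod k)` and the sum of maxima
-/

set_option autoImplicit false

open Finset

namespace Pool.Agent.Ore

/-- `r (k - r)` with `r = m mod k` -/
def hh (k m : ℕ) : ℕ := (m % k) * (k - m % k)

theorem hh_zero (k : ℕ) : hh k 0 = 0 := by simp [hh]

theorem hh_cast (k m : ℕ) (hk : 0 < k) :
    (hh k m : ℤ) = ((m % k : ℕ) : ℤ) * ((k : ℤ) - ((m % k : ℕ) : ℤ)) := by
  unfold hh
  have := (Nat.mod_lt m hk).le
  push_cast [Nat.cast_sub this]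
  ring

/-- subadditivity -/
theorem hh_add_le (k a b : ℕ) (hk : 0 < k) : hh k (a + b) ≤ hh k a + hh k b := by
  have h := hh_cast k (a + b) hk
  have ha := hh_cast k a hk
  have hb := hh_cast k b hk
  have hla := Nat.mod_lt a hk
  have hlb := Nat.mod_lt b hk
  suffices h' : (hh k (a + b) : ℤ) ≤ hh k a + hh k b by exact_mod_cast h'
  rw [h, ha, hb]
  rw [Nat.add_mod]
  set r := a % k
  set s := b % k
  rcases lt_or_ge (r + s) k with h1 | h1
  · rw [Nat.mod_eq_of_lt h1]
    push_cast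
    nlinarith [mul_nonneg (Int.natCast_nonneg r) (Int.natCast_nonneg s)]
  · rw [Nat.mod_eq_sub_mod h1, Nat.mod_eq_of_lt (by omega)]
    push_cast [Nat.cast_sub h1]
    have h2 : (r : ℤ) ≤ k := by exact_mod_cast hla.le
    have h3 : (s : ℤ) ≤ k := by exact_mod_cast hlb.le
    nlinarith [mul_nonneg (sub_nonneg.2 h2) (sub_nonneg.2 h3)]

theorem hh_le (k m : ℕ) : hh k m ≤ m * k := by
  unfold hh
  exact Nat.mul_le_mul (Nat.mod_le _ _) (Nat.sub_le _ _)

/-- the sum of maxima over ordered pairs -/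
theorem sum_max_ge {ι : Type} [Fintype ι] (d : ι → ℕ) (hι : 0 < Fintype.card ι) :
    (Fintype.card ι : ℤ) * (∑ i, d i : ℕ) + hh (Fintype.card ι) (∑ i, d i) ≤
      ∑ i, ∑ j, max (d i : ℤ) (d j) := by
  classical
  set k := Fintype.card ι with hk
  set D := ∑ i, d i with hD
  set q := D / k with hq
  set r := D % k with hr
  have hDqr : (D : ℤ) = k * q + r := by
    have := Nat.div_add_mod D k
    exact_mod_cast this.symm
  have hrk : (r : ℤ) < k := by exact_mod_cast Nat.mod_lt D hι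
  let lo := univ.filter fun i => d i ≤ q
  let hi := univ.filter fun i => ¬ d i ≤ q
  have hcard : (lo.card : ℤ) + hi.card = k := by
    have := Finset.card_filter_add_card_filter_not (s := (univ : Finset ι)) (fun i => d i ≤ q)
    have h2 : (univ : Finset ι).card = k := rfl
    exact_mod_cast this.trans h2
  have hsum : (∑ i ∈ lo, (d i : ℤ)) + ∑ i ∈ hi, (d i : ℤ) = D := by
    rw [Finset.sum_filter_add_sum_filter_not]
    rw [hD]; push_cast; rfl
  have hH : (hi.card : ℤ) * (q + 1) ≤ ∑ i ∈ hi, (d i : ℤ) := by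
    rw [← nsmul_eq_mul]
    apply Finset.card_nsmul_le_sum
    intro i hi'
    have := (mem_filter.1 hi').2
    push Not at this
    exact_mod_cast this
  have hL : ∑ i ∈ lo, (d i : ℤ) ≤ lo.card * q := by
    rw [← nsmul_eq_mul]
    apply Finset.sum_le_card_nsmul
    intro i hi'
    have := (mem_filter.1 hi').2
    exact_mod_cast this
  -- twice the maximum
  have hmax : ∀ a b : ℤ, 2 * max a b = a + b + |a - b| := by
    intro a b
    rcases le_total a b with h | h
    · rw [max_eq_right h, abs_of_nonpos (by linarith)]; ring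
    · rw [max_eq_left h, abs_of_nonneg (by linarith)]; ring
  have h2 : 2 * ∑ i, ∑ j, max (d i : ℤ) (d j) =
      2 * k * D + ∑ i, ∑ j, |(d i : ℤ) - d j| := by
    rw [Finset.mul_sum]
    simp_rw [Finset.mul_sum, hmax, Finset.sum_add_distrib]
    rw [Finset.sum_const]
    simp only [Finset.sum_const, Finset.card_univ, nsmul_eq_mul, ← hk, ← Finset.mul_sum]
    have : (∑ i, (d i : ℤ)) = D := by rw [hD]; push_cast; rfl
    rw [this]; ring
  have h3 : 2 * ∑ i ∈ lo, ∑ j ∈ hi, ((d j : ℤ) - d i) ≤ ∑ i, ∑ j, |(d i : ℤ) - d j| := by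
    have e1 : ∑ i, ∑ j, |(d i : ℤ) - d j| =
        (∑ i ∈ lo, ∑ j, |(d i : ℤ) - d j|) + ∑ i ∈ hi, ∑ j, |(d i : ℤ) - d j| :=
      (Finset.sum_filter_add_sum_filter_not _ _ _).symm
    have e2 : ∑ i ∈ lo, ∑ j ∈ hi, ((d j : ℤ) - d i) ≤ ∑ i ∈ lo, ∑ j, |(d i : ℤ) - d j| := by
      apply Finset.sum_le_sum
      intro i _
      calc ∑ j ∈ hi, ((d j : ℤ) - d i) ≤ ∑ j ∈ hi, |(d i : ℤ) - d j| := by
            apply Finset.sum_le_sum
            intro j _
            rw [abs_sub_comm]
            exact le_abs_self _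
        _ ≤ ∑ j, |(d i : ℤ) - d j| :=
            Finset.sum_le_sum_of_subset_of_nonneg (Finset.subset_univ _)
              (fun _ _ _ => abs_nonneg _)
    have e3 : ∑ i ∈ lo, ∑ j ∈ hi, ((d j : ℤ) - d i) ≤ ∑ i ∈ hi, ∑ j, |(d i : ℤ) - d j| := by
      rw [Finset.sum_comm]
      apply Finset.sum_le_sum
      intro i _
      calc ∑ j ∈ lo, ((d i : ℤ) - d j) ≤ ∑ j ∈ lo, |(d i : ℤ) - d j| := by
            apply Finset.sum_le_sum
            intro j _
            exact le_abs_self _
        _ ≤ ∑ j, |(d i : ℤ) - d j| :=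
            Finset.sum_le_sum_of_subset_of_nonneg (Finset.subset_univ _)
              (fun _ _ _ => abs_nonneg _)
    rw [e1]
    linarith
  have h4 : ∑ i ∈ lo, ∑ j ∈ hi, ((d j : ℤ) - d i) =
      lo.card * (∑ j ∈ hi, (d j : ℤ)) - hi.card * ∑ i ∈ lo, (d i : ℤ) := by
    simp_rw [Finset.sum_sub_distrib]
    simp only [Finset.sum_const, nsmul_eq_mul, ← Finset.mul_sum]
  have h5 : (hh k D : ℤ) ≤ lo.card * (∑ j ∈ hi, (d j : ℤ)) - hi.card * ∑ i ∈ lo, (d i : ℤ) := by
    rw [hh_cast k D hι]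
    set s : ℤ := (lo.card : ℤ) with hs
    set t : ℤ := (hi.card : ℤ) with ht
    set H := ∑ j ∈ hi, (d j : ℤ)
    set Λ := ∑ i ∈ lo, (d i : ℤ)
    have hs0 : 0 ≤ s := Int.natCast_nonneg _
    have ht0 : 0 ≤ t := Int.natCast_nonneg _
    have hr0 : (0 : ℤ) ≤ r := Int.natCast_nonneg _
    have e1 : s * H - t * Λ = k * H - t * D := by
      have : s = k - t := by linarith
      rw [this, ← hsum]; ring
    rw [e1]
    -- two lower bounds
    have b1 : t * ((k : ℤ) - r) ≤ k * H - t * D := by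
      have : (k : ℤ) * (t * (q + 1)) ≤ k * H := by
        apply mul_le_mul_of_nonneg_left hH; positivity
      rw [hDqr]
      nlinarith
    have b2 : s * r ≤ k * H - t * D := by
      have h6 : (D : ℤ) - s * q ≤ H := by linarith
      have : (k : ℤ) * (D - s * q) ≤ k * H := by
        apply mul_le_mul_of_nonneg_left h6; positivity
      have h7 : t = k - s := by linarith
      have h8 : s * D = s * (k * q + r) := by rw [hDqr]
      rw [h7]
      nlinarith
    rcases le_total (r : ℤ) t with h6 | h6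
    · have : (r : ℤ) * (k - r) ≤ t * (k - r) :=
        mul_le_mul_of_nonneg_right h6 (by linarith)
      linarith
    · have h7 : (k : ℤ) - r ≤ s := by linarith
      have : (r : ℤ) * (k - r) ≤ r * s := mul_le_mul_of_nonneg_left h7 hr0
      linarith
  have h6 := h3
  rw [h4] at h6
  nlinarith

end Pool.Agent.Ore
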