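import Pool.Agent.Lib_helper33.Ore.Lower

/-!
# The asymptotic lower bound
-/

set_option autoImplicit false
set_option linter.unusedSectionVars false

open scoped Classical
open Finset

namespace Pool.Agent.Ore

theorem lower_asymp_aux (C δ : ℝ) (hC : 1 ≤ C) (hδ : 0 < δ) :
    ∃ K₀ : ℕ, ∀ K : ℕ, K₀ ≤ K → ∀ (V : Type) [Fintype V] (G : SimpleGraph V), Crit G K →
      (Fintype.card V : ℝ) ≤ C * (K + 1) →
      (K : ℝ) * Fintype.card V + hh (K + 1) (Fintype.card V) - 10 * C * δ * ((K : ℝ) + 1) ^ 2 ≤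
        pr G univ univ := by
  set L : ℕ := ⌈C / δ⌉₊ with hL
  set T : ℕ := ⌈C / δ ^ 2⌉₊ with hT
  have hC0 : 0 < C := by linarith
  have hLr : C / δ ≤ L := Nat.le_ceil _
  have hTr : C / δ ^ 2 ≤ T := Nat.le_ceil _
  have hT0 : 0 < T := by
    rw [hT]; exact Nat.ceil_pos.2 (by positivity)
  set B : ℕ := ∑ t ∈ range T, Bd L (t + 1) with hB
  refine ⟨max ⌈((B : ℝ) + 1) / δ⌉₊ ⌈5 / δ⌉₊, fun K hK V _ G hG hn => ?_⟩
  have hK1 : ((B : ℝ) + 1) / δ ≤ K := by
    refine (Nat.le_ceil _).trans ?_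
    exact_mod_cast (le_max_left _ _).trans hK
  have hK2 : 5 / δ ≤ K := by
    refine (Nat.le_ceil _).trans ?_
    exact_mod_cast (le_max_right _ _).trans hK
  set k : ℝ := (K : ℝ) + 1 with hk
  have hk0 : 0 < k := by positivity
  have hKk : (K : ℝ) ≤ k := by linarith
  set τ : ℕ := ⌊δ * k⌋₊ with hτ
  set η : ℕ := ⌈δ * k⌉₊ with hη
  have hδk : 0 < δ * k := by positivity
  have hη0 : 0 < η := Nat.ceil_pos.2 hδk
  have hτr : (τ : ℝ) ≤ δ * k := Nat.floor_le hδk.le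
  have hηr : (η : ℝ) ≤ δ * k + 1 := (Nat.ceil_lt_add_one hδk.le).le
  have hηr' : δ * k ≤ η := Nat.le_ceil _
  have hBτ : ∀ t < T, Bd L (t + 1) ≤ τ := by
    intro t ht
    have h1 : Bd L (t + 1) ≤ B := by
      rw [hB]
      exact single_le_sum (f := fun t => Bd L (t + 1)) (fun _ _ => Nat.zero_le _)
        (mem_range.2 ht)
    refine h1.trans ?_
    rw [hτ]
    apply Nat.le_floor
    have : ((B : ℝ) + 1) ≤ δ * K := by
      rw [div_le_iff₀ hδ] at hK1
      linarith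
    have h3 : δ * K ≤ δ * k := mul_le_mul_of_nonneg_left hKk hδ.le
    linarith
  have hmain := lower_bound G hG hT0 hη0 hBτ (Fintype.card V) rfl
  set n : ℕ := Fintype.card V with hn'
  have hmainR : (K : ℝ) * n + hh (K + 1) n -
      (n * (3 * ((τ + n / (L + 1) : ℕ) : ℝ) + η + 4) +
        2 * ((n / η : ℕ) * (((n / T : ℕ) : ℝ) * (K + 1)))) ≤ pr G univ univ := by
    exact_mod_cast hmain
  have hn0 : (0 : ℝ) ≤ n := Nat.cast_nonneg _
  have h1 : ((n / (L + 1) : ℕ) : ℝ) ≤ δ * k := by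
    have e1 : ((n / (L + 1) : ℕ) : ℝ) ≤ (n : ℝ) / ((L + 1 : ℕ) : ℝ) := Nat.cast_div_le
    refine e1.trans ?_
    rw [div_le_iff₀ (by positivity)]
    push_cast
    have e2 : C ≤ δ * L := by
      rw [div_le_iff₀ hδ] at hLr; linarith
    have e3 : C * k ≤ δ * L * k := mul_le_mul_of_nonneg_right e2 hk0.le
    nlinarith
  have h2 : ((n / η : ℕ) : ℝ) ≤ C / δ := by
    have e1 : ((n / η : ℕ) : ℝ) ≤ (n : ℝ) / (η : ℝ) := Nat.cast_div_le
    refine e1.trans ?_
    rw [div_le_div_iff₀ (by exact_mod_cast hη0) hδ]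
    calc (n : ℝ) * δ ≤ C * k * δ := mul_le_mul_of_nonneg_right hn hδ.le
      _ = C * (δ * k) := by ring
      _ ≤ C * η := mul_le_mul_of_nonneg_left hηr' hC0.le
  have h3 : ((n / T : ℕ) : ℝ) ≤ δ ^ 2 * k := by
    have e1 : ((n / T : ℕ) : ℝ) ≤ (n : ℝ) / (T : ℝ) := Nat.cast_div_le
    refine e1.trans ?_
    rw [div_le_iff₀ (by exact_mod_cast hT0)]
    have e2 : C ≤ δ ^ 2 * T := by
      rw [div_le_iff₀ (by positivity)] at hTr; linarith
    have e3 : C * k ≤ δ ^ 2 * T * k := mul_le_mul_of_nonneg_right e2 hk0.le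
    nlinarith
  have h4 : (n : ℝ) * (3 * ((τ + n / (L + 1) : ℕ) : ℝ) + η + 4) ≤ C * k * (7 * (δ * k) + 5) := by
    apply mul_le_mul hn _ (by positivity) (by positivity)
    push_cast at h1 ⊢
    linarith
  have h5 : 2 * (((n / η : ℕ) : ℝ) * (((n / T : ℕ) : ℝ) * (K + 1))) ≤ 2 * C * δ * k ^ 2 := by
    have e1 : ((n / η : ℕ) : ℝ) * (((n / T : ℕ) : ℝ) * k) ≤ C / δ * (δ ^ 2 * k * k) := by
      apply mul_le_mul h2 _ (by positivity) (by positivity)
      exact mul_le_mul_of_nonneg_right h3 hk0.le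
    have e2 : C / δ * (δ ^ 2 * k * k) = C * δ * k ^ 2 := by
      field_simp
    rw [e2] at e1
    rw [← hk]
    linarith
  have h6 : 5 * (C * k) ≤ C * δ * k ^ 2 := by
    have e1 : 5 ≤ δ * k := by
      rw [div_le_iff₀ hδ] at hK2
      nlinarith
    have e2 : 5 * (C * k) ≤ δ * k * (C * k) := mul_le_mul_of_nonneg_right e1 (by positivity)
    nlinarith
  nlinarith

/-- lower bound: for every `C` and `ε`, all large `K` -/
theorem lower_asymp (C ε : ℝ) (hε : 0 < ε) :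
    ∃ K₀ : ℕ, ∀ K : ℕ, K₀ ≤ K → ∀ (V : Type) [Fintype V] (G : SimpleGraph V), Crit G K →
      (Fintype.card V : ℝ) ≤ C * (K + 1) →
      (K : ℝ) * Fintype.card V + hh (K + 1) (Fintype.card V) - ε * ((K : ℝ) + 1) ^ 2 ≤
        pr G univ univ := by
  have hC1 : 1 ≤ max C 1 := le_max_right _ _
  obtain ⟨K₀, h⟩ := lower_asymp_aux (max C 1) (ε / (10 * max C 1)) hC1 (by positivity)
  refine ⟨K₀, fun K hK V _ G hG hn => ?_⟩
  have h1 := h K hK V G hG (hn.trans (mul_le_mul_of_nonneg_right (le_max_left _ _)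
    (by positivity)))
  have h2 : 10 * max C 1 * (ε / (10 * max C 1)) = ε := by
    have : (0 : ℝ) < max C 1 := by linarith
    field_simp
  rw [h2] at h1
  exact h1

end Pool.Agent.Ore
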