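import Pool.Agent.Lib_helper33.Ore.Stuck
import Pool.Agent.Lib_helper33.Ore.Arith

/-!
# Counting edges that meet the new part of a stuck set
-/

set_option autoImplicit false
set_option linter.unusedSectionVars false

open scoped Classical
open Finset

namespace Pool.Agent.Ore

variable {V : Type} [Fintype V] (G : SimpleGraph V)

/-- ordered adjacent pairs in `X × Y` -/
noncomputable def pr (X Y : Finset V) : ℕ := ((X ×ˢ Y).filter fun p => G.Adj p.1 p.2).card

theorem pr_symm (X Y : Finset V) : pr G X Y = pr G Y X := by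
  unfold pr
  apply card_bij (fun p _ => (p.2, p.1))
  · intro p hp
    simp only [mem_filter, mem_product] at hp ⊢
    exact ⟨⟨hp.1.2, hp.1.1⟩, hp.2.symm⟩
  · intro p _ q _ h
    simp only [Prod.mk.injEq] at h
    exact Prod.ext h.2 h.1
  · intro p hp
    simp only [mem_filter, mem_product] at hp
    exact ⟨(p.2, p.1), by simp only [mem_filter, mem_product]; exact ⟨⟨hp.1.2, hp.1.1⟩, hp.2.symm⟩,
      rfl⟩

theorem pr_union_left (X X' Y : Finset V) (h : Disjoint X X') :
    pr G (X ∪ X') Y = pr G X Y + pr G X' Y := by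
  unfold pr
  rw [union_product, filter_union, card_union_of_disjoint]
  apply Finset.disjoint_filter_filter
  rw [Finset.disjoint_left]
  intro p hp hp'
  exact (Finset.disjoint_left.1 h (mem_product.1 hp).1) (mem_product.1 hp').1

theorem pr_union_right (X Y Y' : Finset V) (h : Disjoint Y Y') :
    pr G X (Y ∪ Y') = pr G X Y + pr G X Y' := by
  rw [pr_symm, pr_union_left G Y Y' X h, pr_symm G Y, pr_symm G Y']

theorem pr_mono {X X' Y Y' : Finset V} (h : X ⊆ X') (h' : Y ⊆ Y') : pr G X Y ≤ pr G X' Y' :=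
  card_le_card (filter_subset_filter _ (product_subset_product h h'))

/-- classes other than the class of `s` in which `s` has no neighbour belonging to `S` -/
noncomputable def lack {ι : Type} [Fintype ι] (c : V → ι) (S : Finset V) (s : V) : Finset ι :=
  univ.filter fun i => c s ≠ i ∧ ∀ u ∈ S, c u = i → ¬ G.Adj s u

/-- edges between `S_i` and `S_j` with an end in `D` -/
noncomputable def mm {ι : Type} (c : V → ι) (S D : Finset V) (i j : ι) : ℕ :=
  ((S ×ˢ S).filter fun p => G.Adj p.1 p.2 ∧ (p.1 ∈ D ∨ p.2 ∈ D) ∧ c p.1 = i ∧ c p.2 = j).card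

theorem mm_symm {ι : Type} (c : V → ι) (S D : Finset V) (i j : ι) :
    mm G c S D i j = mm G c S D j i := by
  unfold mm
  apply card_bij (fun p _ => (p.2, p.1))
  · intro p hp
    simp only [mem_filter, mem_product] at hp ⊢
    exact ⟨⟨hp.1.2, hp.1.1⟩, hp.2.1.symm, hp.2.2.1.symm, hp.2.2.2.2, hp.2.2.2.1⟩
  · intro p _ q _ h
    simp only [Prod.mk.injEq] at h
    exact Prod.ext h.2 h.1
  · intro p hp
    simp only [mem_filter, mem_product] at hp
    exact ⟨(p.2, p.1), by
      simp only [mem_filter, mem_product]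
      exact ⟨⟨hp.1.2, hp.1.1⟩, hp.2.1.symm, hp.2.2.1.symm, hp.2.2.2.2, hp.2.2.2.1⟩, rfl⟩

theorem le_mm {ι : Type} [Fintype ι] (c : V → ι) {S D : Finset V} (hD : D ⊆ S) {i j : ι}
    (hij : i ≠ j) :
    (D.filter fun v => c v = i).card ≤
      mm G c S D i j + (D.filter fun v => c v = i ∧ j ∈ lack G c S v).card := by
  have h1 : (D.filter fun v => c v = i ∧ j ∉ lack G c S v).card ≤ mm G c S D i j := by
    have hex : ∀ v ∈ D.filter (fun v => c v = i ∧ j ∉ lack G c S v),
        ∃ u ∈ S, c u = j ∧ G.Adj v u := by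
      intro v hv
      simp only [mem_filter, lack, mem_univ, true_and, not_and, not_forall, not_not] at hv
      obtain ⟨u, hu, hu2, hu3⟩ := hv.2.2 (by rw [hv.2.1]; exact hij)
      exact ⟨u, hu, hu2, hu3⟩
    choose! f hf1 hf2 hf3 using hex
    unfold mm
    apply card_le_card_of_injOn (fun v => (v, f v))
    · intro v hv
      have hv' := mem_filter.1 (Finset.mem_coe.1 hv)
      have hv'' := Finset.mem_coe.1 hv
      rw [Finset.mem_coe, mem_filter, mem_product]
      exact ⟨⟨hD hv'.1, hf1 v hv''⟩, hf3 v hv'', Or.inl hv'.1, hv'.2.1, hf2 v hv''⟩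
    · intro v _ w _ h
      exact (Prod.mk.inj h).1
  have h2 : (D.filter fun v => c v = i).card =
      (D.filter fun v => c v = i ∧ j ∉ lack G c S v).card +
        (D.filter fun v => c v = i ∧ j ∈ lack G c S v).card := by
    rw [← card_union_of_disjoint, ← filter_or]
    · congr 1
      apply filter_congr
      intro v _
      tauto
    · rw [Finset.disjoint_left]
      intro v hv hv'
      exact (mem_filter.1 hv).2.2 (mem_filter.1 hv').2.2
  omega

theorem sum_mm {ι : Type} [Fintype ι] (c : V → ι) (S D : Finset V) (hD : D ⊆ S)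
    (hc : ∀ a b, G.Adj a b → c a ≠ c b) :
    ∑ i, ∑ j, (if i = j then 0 else mm G c S D i j) = pr G D D + 2 * pr G D (S \ D) := by
  have h1 : ∑ i, ∑ j, (if i = j then 0 else mm G c S D i j) =
      ((S ×ˢ S).filter fun p => G.Adj p.1 p.2 ∧ (p.1 ∈ D ∨ p.2 ∈ D)).card := by
    have h2 : ∀ i j, (if i = j then 0 else mm G c S D i j) =
        (((S ×ˢ S).filter fun p => G.Adj p.1 p.2 ∧ (p.1 ∈ D ∨ p.2 ∈ D)).filter
          fun p => (c p.1, c p.2) = (i, j)).card := by
      intro i j
      split_ifs with h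
      · symm
        rw [card_eq_zero, filter_eq_empty_iff]
        intro p hp hpij
        have hp' := (mem_filter.1 hp).2.1
        apply hc _ _ hp'
        have := Prod.mk.inj hpij
        rw [this.1, this.2, h]
      · unfold mm
        rw [filter_filter]
        congr 1
        apply filter_congr
        intro p _
        simp only [Prod.mk.injEq]
        tauto
    simp_rw [h2]
    rw [← Finset.sum_product']
    rw [card_eq_sum_card_fiberwise (f := fun p : V × V => (c p.1, c p.2))
      (t := (univ : Finset ι) ×ˢ (univ : Finset ι))]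
    intro p _
    simp
  rw [h1]
  have h3 : ((S ×ˢ S).filter fun p => G.Adj p.1 p.2 ∧ (p.1 ∈ D ∨ p.2 ∈ D)) =
      ((D ×ˢ D).filter fun p => G.Adj p.1 p.2) ∪
        (((D ×ˢ (S \ D)).filter fun p => G.Adj p.1 p.2) ∪
          (((S \ D) ×ˢ D).filter fun p => G.Adj p.1 p.2)) := by
    ext p
    simp only [mem_union, mem_filter, mem_product, mem_sdiff]
    constructor
    · rintro ⟨⟨h1, h2⟩, h3, h4⟩
      by_cases ha : p.1 ∈ D <;> by_cases hb : p.2 ∈ D
      · exact Or.inl ⟨⟨ha, hb⟩, h3⟩
      · exact Or.inr (Or.inl ⟨⟨ha, h2, hb⟩, h3⟩)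
      · exact Or.inr (Or.inr ⟨⟨⟨h1, ha⟩, hb⟩, h3⟩)
      · tauto
    · rintro (⟨⟨ha, hb⟩, h3⟩ | ⟨⟨ha, hb, hb'⟩, h3⟩ | ⟨⟨⟨ha, ha'⟩, hb⟩, h3⟩)
      · exact ⟨⟨hD ha, hD hb⟩, h3, Or.inl ha⟩
      · exact ⟨⟨hD ha, hb⟩, h3, Or.inl ha⟩
      · exact ⟨⟨ha, hD hb⟩, h3, Or.inr hb⟩
  rw [h3, card_union_of_disjoint, card_union_of_disjoint]
  · have := pr_symm G (S \ D) D
    unfold pr at this ⊢
    omega
  · rw [Finset.disjoint_left]
    intro p hp hp'
    simp only [mem_filter, mem_product, mem_sdiff] at hp hp'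
    exact hp'.1.1.2 hp.1.1
  · rw [Finset.disjoint_left]
    intro p hp hp'
    simp only [mem_union, mem_filter, mem_product, mem_sdiff] at hp hp'
    rcases hp' with h | h
    · exact h.1.2.2 hp.1.2
    · exact h.1.1.2 hp.1.1

/-- the main counting inequality -/
theorem count_main {ι : Type} [Fintype ι] (hι : 0 < Fintype.card ι) (c : V → ι)
    (hc : ∀ a b, G.Adj a b → c a ≠ c b) (S D : Finset V) (hD : D ⊆ S) :
    (Fintype.card ι : ℤ) * D.card + hh (Fintype.card ι) D.card - D.card -
        2 * ∑ s ∈ D, ((lack G c S s).card : ℤ) ≤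
      pr G D D + 2 * pr G D (S \ D) := by
  set d : ι → ℕ := fun i => (D.filter fun v => c v = i).card with hd
  have hsumd : ∑ i, d i = D.card := by
    rw [hd]
    exact (card_eq_sum_card_fiberwise (f := c) (t := univ) (fun _ _ => by simp)).symm
  have h1 := sum_max_ge d hι
  rw [hsumd] at h1
  set l : ι → ι → ℕ := fun i j => (D.filter fun v => c v = i ∧ j ∈ lack G c S v).card with hl
  have h2 : ∀ i j, (if i = j then 0 else max (d i : ℤ) (d j)) ≤
      (if i = j then 0 else (mm G c S D i j : ℤ)) + l i j + l j i := by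
    intro i j
    split_ifs with h
    · positivity
    · have e1 : d i ≤ mm G c S D i j + l i j := le_mm G c hD h
      have e2 : d j ≤ mm G c S D j i + l j i := le_mm G c hD (Ne.symm h)
      rw [mm_symm] at e2
      apply max_le
      · have : d i ≤ mm G c S D i j + l i j + l j i := by omega
        exact_mod_cast this
      · have : d j ≤ mm G c S D i j + l i j + l j i := by omega
        exact_mod_cast this
  have h3 : ∑ i, ∑ j, (if i = j then 0 else max (d i : ℤ) (d j)) ≤
      ∑ i, ∑ j, ((if i = j then 0 else (mm G c S D i j : ℤ)) + l i j + l j i) :=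
    sum_le_sum fun i _ => sum_le_sum fun j _ => h2 i j
  have h4 : ∑ i, ∑ j, (if i = j then 0 else max (d i : ℤ) (d j)) =
      ∑ i, ∑ j, max (d i : ℤ) (d j) - D.card := by
    have : ∀ i, ∑ j, (if i = j then 0 else max (d i : ℤ) (d j)) =
        ∑ j, max (d i : ℤ) (d j) - d i := by
      intro i
      have e : ∀ j, (if i = j then 0 else max (d i : ℤ) (d j)) =
          max (d i : ℤ) (d j) - (if i = j then (d i : ℤ) else 0) := by
        intro j
        split_ifs with h
        · subst h; simp
        · simp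
      simp_rw [e, sum_sub_distrib]
      simp
    simp_rw [this, sum_sub_distrib]
    rw [← hsumd]
    push_cast
    rfl
  have h5 : ∑ i, ∑ j, ((l i j : ℤ)) = ∑ s ∈ D, ((lack G c S s).card : ℤ) := by
    have e1 : ∀ i j, (l i j : ℤ) = ∑ s ∈ D, if c s = i ∧ j ∈ lack G c S s then 1 else 0 := by
      intro i j
      rw [hl]
      simp only [card_filter, Nat.cast_sum, Nat.cast_ite, Nat.cast_one, Nat.cast_zero]
    have e2 : ∀ i, ∑ j, (l i j : ℤ) =
        ∑ s ∈ D, ∑ j, if c s = i ∧ j ∈ lack G c S s then (1 : ℤ) else 0 := by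
      intro i
      simp_rw [e1]
      exact sum_comm
    simp_rw [e2]
    rw [sum_comm]
    refine sum_congr rfl fun s _ => ?_
    rw [sum_eq_single (c s)]
    · simp only [true_and, sum_ite_mem, univ_inter, sum_const, nsmul_eq_mul, mul_one]
    · intro i _ hi
      simp [Ne.symm hi]
    · simp
  have h6 : ∑ i, ∑ j, ((l j i : ℤ)) = ∑ s ∈ D, ((lack G c S s).card : ℤ) := by
    rw [sum_comm, h5]
  have h7 : ∑ i, ∑ j, (if i = j then 0 else (mm G c S D i j : ℤ)) =
      pr G D D + 2 * pr G D (S \ D) := by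
    have := sum_mm G c S D hD hc
    have h8 : ((∑ i, ∑ j, (if i = j then 0 else mm G c S D i j) : ℕ) : ℤ) =
        ((pr G D D + 2 * pr G D (S \ D) : ℕ) : ℤ) := by rw [this]
    push_cast at h8
    exact h8
  simp only [sum_add_distrib] at h3
  rw [h4, h7, h5, h6] at h3
  linarith

end Pool.Agent.Ore
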