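import Mathlib

/-!
# Vertex-critical graphs: definitions
-/

set_option autoImplicit false

namespace Pool.Agent.Ore

/-- `K` colours suffice for `G` on the vertices other than `x`. -/
def ColOff {V : Type} (G : SimpleGraph V) (K : ℕ) (x : V) : Prop :=
  ∃ c : V → Fin K, ∀ a b, a ≠ x → b ≠ x → G.Adj a b → c a ≠ c b

/-- `G` is not `K`-colourable but becomes so when any vertex is deleted. -/
def Crit {V : Type} (G : SimpleGraph V) (K : ℕ) : Prop :=
  ¬ G.Colorable K ∧ ∀ x, ColOff G K x

/-- twice the number of edges: ordered adjacent pairs -/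
noncomputable def e2 {V : Type} [Fintype V] (G : SimpleGraph V) : ℕ := by
  classical exact (Finset.univ.filter fun p : V × V => G.Adj p.1 p.2).card

end Pool.Agent.Ore
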