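import Pool.Agent.Lib_helper33.Ore.Upper

/-!
# The asymptotic upper bound
-/

set_option autoImplicit false
set_option linter.unusedSectionVars false

open scoped Classical
open Finset

namespace Pool.Agent.Ore

theorem iter_join {K n e : ℕ} (h : Good K n e) (a : ℕ) :
    ∃ e' : ℕ, Good (K + a) (n + a) e' ∧ (e' : ℤ) = e + 2 * a * n + a * (a - 1) := by
  induction a with
  | zero => exact ⟨e, h, by simp⟩
  | succ a ih =>
    obtain ⟨e', h1, h2⟩ := ih
    refine ⟨e' + 2 * (n + a), good_join h1, ?_⟩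
    push_cast
    rw [h2]
    ring

theorem iter_haj {K n e : ℕ} (hK : 2 ≤ K) (h : Good K n e) (j : ℕ) :
    ∃ e' : ℕ, Good K (n + j * K) e' ∧ (e' : ℤ) = e + j * (K * (K + 1) - 2) := by
  obtain ⟨m, rfl⟩ : ∃ m, K = m + 1 := ⟨K - 1, by omega⟩
  induction j with
  | zero => exact ⟨e, by simpa using h, by simp⟩
  | succ j ih =>
    obtain ⟨e', h1, h2⟩ := ih
    have h3 := good_haj (by omega) h1
    refine ⟨e' + m * (m + 3), ?_, ?_⟩
    · have e1 : n + (j + 1) * (m + 1) = n + j * (m + 1) + (m + 1) := by ring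
      rw [e1]
      exact h3
    · push_cast
      rw [h2]
      push_cast
      ring

theorem good_family (p a j : ℕ) (hp : 2 ≤ p) :
    ∃ e : ℕ, Good (p + a) (2 * p + 1 + a + j * (p + a)) e ∧
      (e : ℤ) = ((p + a : ℕ) : ℤ) * ((2 * p + 1 + a + j * (p + a) : ℕ) : ℤ) +
        p * (a + 1) - 2 + j * ((p + a : ℕ) - 2) := by
  have h0 := good_complete p (by omega)
  obtain ⟨e1, h1, h1'⟩ := iter_haj hp h0 1
  have e0 : p + 1 + 1 * p = 2 * p + 1 := by ring
  rw [e0] at h1
  obtain ⟨e2, h2, h2'⟩ := iter_join h1 a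
  obtain ⟨e3, h3, h3'⟩ := iter_haj (by omega) h2 j
  refine ⟨e3, h3, ?_⟩
  rw [h3', h2', h1']
  push_cast
  ring

theorem hh_congr {k a b : ℕ} (h : a % k = b % k) : hh k a = hh k b := by
  unfold hh; rw [h]

theorem upper_asymp (C ε : ℝ) (hε : 0 < ε) :
    ∃ K₀ : ℕ, ∀ K : ℕ, K₀ ≤ K → ∀ n : ℕ, K + 1 ≤ n → n ≠ K + 2 →
      (n : ℝ) ≤ C * (K + 1) → ∃ e : ℕ, Good K n e ∧
        (e : ℝ) ≤ (K : ℝ) * n + hh (K + 1) n + ε * ((K : ℝ) + 1) ^ 2 := by
  refine ⟨max ⌈(5 * C + 3) / ε⌉₊ (max ⌈2 * C + 3⌉₊ 3), fun K hK n hn1 hn2 hnC => ?_⟩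
  have hK1 : (5 * C + 3) / ε ≤ K := by
    refine (Nat.le_ceil _).trans ?_
    exact_mod_cast (le_max_left _ _).trans hK
  have hK2 : 2 * C + 3 ≤ K := by
    refine (Nat.le_ceil _).trans ?_
    exact_mod_cast ((le_max_left _ _).trans (le_max_right _ _)).trans hK
  have hK3 : 3 ≤ K := ((le_max_right _ _).trans (le_max_right _ _)).trans hK
  have hkpos : (0 : ℝ) < (K : ℝ) + 1 := by positivity
  have hC1 : 1 ≤ C := by
    have h1 : ((K : ℝ) + 1) ≤ n := by exact_mod_cast hn1
    have h2 : 1 * ((K : ℝ) + 1) ≤ C * (K + 1) := by linarith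
    exact le_of_mul_le_mul_right h2 hkpos
  have herr : (5 * C + 3) * ((K : ℝ) + 1) ≤ ε * ((K : ℝ) + 1) ^ 2 := by
    have h1 : 5 * C + 3 ≤ ε * K := by
      rw [div_le_iff₀ hε] at hK1; linarith
    have h2 : 5 * C + 3 ≤ ε * ((K : ℝ) + 1) := by nlinarith
    calc (5 * C + 3) * ((K : ℝ) + 1) ≤ ε * ((K : ℝ) + 1) * ((K : ℝ) + 1) :=
          mul_le_mul_of_nonneg_right h2 hkpos.le
      _ = _ := by ring
  have hh0 : (0 : ℝ) ≤ hh (K + 1) n := Nat.cast_nonneg _
  rcases Nat.eq_or_lt_of_le hn1 with h | h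
  · -- complete graph
    refine ⟨(K + 1) * K, ?_, ?_⟩
    · rw [← h]; exact good_complete K (by omega)
    · rw [← h] at hh0 ⊢
      push_cast
      have : 0 ≤ ε * ((K : ℝ) + 1) ^ 2 := by positivity
      nlinarith
  · obtain ⟨N, hN⟩ : ∃ N, n = K + 1 + (N + 2) := ⟨n - (K + 3), by omega⟩
    set j := N / K with hj
    set s := N % K with hs
    have hdm : K * j + s = N := Nat.div_add_mod N K
    have hsK : s < K := Nat.mod_lt _ (by omega)
    have hjC : (j : ℝ) ≤ 2 * C := by
      have h1 : ((j : ℝ)) * K ≤ n := by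
        have : j * K ≤ n := by nlinarith
        exact_mod_cast this
      have h2 : (j : ℝ) * K ≤ 2 * C * K := by
        have hK1' : (1 : ℝ) ≤ K := by exact_mod_cast (by omega : 1 ≤ K)
        nlinarith
      exact le_of_mul_le_mul_right h2 (by exact_mod_cast (by omega : 0 < K))
    rcases Nat.lt_or_ge (s + 2) (K + 1) with hsp | hsp
    · -- `p = s + 2 ≤ K`
      obtain ⟨a, ha⟩ : ∃ a, K = s + 2 + a := ⟨K - (s + 2), by omega⟩
      obtain ⟨e, he, he'⟩ := good_family (s + 2) a j (by omega)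
      have hn' : 2 * (s + 2) + 1 + a + j * (s + 2 + a) = n := by
        rw [← ha, hN, ← hdm]
        have : K + 1 + (K * j + s + 2) = 2 * (s + 2) + 1 + a + j * K := by
          rw [ha]; ring
        linarith
      rw [hn', ← ha] at he he'
      refine ⟨e, he, ?_⟩
      have h1 : hh (K + 1) (n + j) = (s + 2) * (a + 1) := by
        have h2 : (n + j) % (K + 1) = s + 2 := by
          have : n + j = (s + 2) + (K + 1) * (j + 1) := by
            rw [hN, ← hdm]; ring
          rw [this, Nat.add_mul_mod_self_left, Nat.mod_eq_of_lt hsp]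
        unfold hh
        rw [h2]
        congr 1
        omega
      have h2 := hh_add_le (K + 1) n j (by omega)
      have h3 := hh_le (K + 1) j
      have h4 : ((s + 2 : ℕ) : ℝ) * (a + 1) ≤ hh (K + 1) n + j * (K + 1) := by
        have : (s + 2) * (a + 1) ≤ hh (K + 1) n + j * (K + 1) := by omega
        exact_mod_cast this
      have h5 : (e : ℝ) = (K : ℝ) * n + ((s + 2 : ℕ) : ℝ) * (a + 1) - 2 + j * ((K : ℝ) - 2) := by
        exact_mod_cast he'
      have h6 : (j : ℝ) * (K + 1) ≤ 2 * C * (K + 1) :=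
        mul_le_mul_of_nonneg_right hjC hkpos.le
      have h7 : (0 : ℝ) ≤ j := Nat.cast_nonneg _
      rw [h5]
      nlinarith
    · -- `p = K + 1`
      have hsK' : s = K - 1 := by omega
      obtain ⟨a, ha⟩ : ∃ a, K = j + 3 + a := by
        have : (j : ℝ) + 3 ≤ K := by linarith
        have h2 : j + 3 ≤ K := by exact_mod_cast this
        exact ⟨K - (j + 3), by omega⟩
      obtain ⟨e, he, he'⟩ := good_family (j + 2) a (j + 1) (Nat.le_add_left 2 j)
      have hn' : 2 * (j + 2) + 1 + a + (j + 1) * (j + 2 + a) + 1 = n := by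
        have h1 : N = K * j + (K - 1) := by rw [← hsK']; exact hdm.symm
        have h2 : K - 1 = j + 2 + a := by omega
        rw [hN, h1, h2, ha]
        ring
      have hgj := good_join he
      have hK' : j + 2 + a + 1 = K := by omega
      rw [hn', hK'] at hgj
      refine ⟨_, hgj, ?_⟩
      set n' := 2 * (j + 2) + 1 + a + (j + 1) * (j + 2 + a) with hn''
      have h5 : (e : ℝ) = ((j + 2 + a : ℕ) : ℝ) * n' + ((j + 2 : ℕ) : ℝ) * (a + 1) - 2 +
          ((j + 1 : ℕ) : ℝ) * (((j + 2 + a : ℕ) : ℝ) - 2) := by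
        exact_mod_cast he'
      have hKr : (K : ℝ) = j + 3 + a := by exact_mod_cast ha
      have hnr : (n : ℝ) = n' + 1 := by exact_mod_cast hn'.symm
      have hj0 : (0 : ℝ) ≤ j := Nat.cast_nonneg _
      have ha0 : (0 : ℝ) ≤ a := Nat.cast_nonneg _
      have hn'0 : (0 : ℝ) ≤ n' := Nat.cast_nonneg _
      push_cast
      rw [h5]
      push_cast
      have h6 : (j : ℝ) * K ≤ 2 * C * K := mul_le_mul_of_nonneg_right hjC (by positivity)
      have h7 : ((j : ℝ) + 2) * (a + 1) ≤ (j + 2) * K := by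
        apply mul_le_mul_of_nonneg_left _ (by positivity)
        linarith
      have h8 : ((j : ℝ) + 1) * (j + 2 + a - 2) ≤ (j + 1) * K := by
        apply mul_le_mul_of_nonneg_left _ (by positivity)
        linarith
      have h9 : ((j : ℝ) + 2 + a) * n' + 2 * n' = (K + 1) * n' := by rw [hKr]; ring
      have h10 : ((K : ℝ) + 1) * n' ≤ K * n + n := by
        rw [hnr]; nlinarith
      nlinarith

end Pool.Agent.Ore
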