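import Pool.Agent.Lib_helper33.Ore.Asymp
import Pool.Agent.Lib_helper33.Ore.UpperAsymp

/-!
# Critical graphs and `f_k(n)`
-/

set_option autoImplicit false
set_option linter.unusedSectionVars false

open scoped Classical
open Finset

namespace Pool.Agent.Ore

/-- critical `k`-chromatic graphs -/
def IsCritical (k : ℕ) {V : Type} (G : SimpleGraph V) : Prop :=
  G.chromaticNumber = (k : ℕ∞) ∧
    ∀ x : V, (G.induce {x}ᶜ).chromaticNumber = ((k - 1 : ℕ) : ℕ∞)

/-- the minimum number of edges of a critical `k`-chromatic graph on `n` vertices -/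
noncomputable def fmin (k n : ℕ) : ℕ :=
  sInf {e : ℕ | ∃ G : SimpleGraph (Fin n), IsCritical k G ∧ G.edgeSet.ncard = e}

theorem colOff_iff {V : Type} (G : SimpleGraph V) (K : ℕ) (hK : 1 ≤ K) (x : V) :
    ColOff G K x ↔ (G.induce {x}ᶜ).Colorable K := by
  constructor
  · rintro ⟨c, hc⟩
    refine ⟨SimpleGraph.Coloring.mk (fun v => c v.1) ?_⟩
    intro a b hab
    exact hc a.1 b.1 a.2 b.2 hab
  · rintro ⟨C⟩
    refine ⟨fun v => if h : v ≠ x then C ⟨v, h⟩ else ⟨0, hK⟩, ?_⟩
    intro a b ha hb hab
    simp only [ne_eq, ha, not_false_eq_true, dif_pos, hb]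
    exact C.valid (show (G.induce {x}ᶜ).Adj ⟨a, ha⟩ ⟨b, hb⟩ from hab)

theorem colorable_succ {V : Type} {G : SimpleGraph V} {K : ℕ} {x : V} (h : ColOff G K x) :
    G.Colorable (K + 1) := by
  obtain ⟨c, hc⟩ := h
  refine ⟨SimpleGraph.Coloring.mk
    (fun a => if a = x then Fin.last K else (c a).castSucc) ?_⟩
  intro a b hab
  by_cases h1 : a = x <;> by_cases h2 : b = x
  · exact absurd (h1.trans h2.symm) hab.ne
  · simp only [h1, h2, if_true, if_false]
    exact (Fin.castSucc_lt_last _).ne'
  · simp only [h1, h2, if_true, if_false]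
    exact (Fin.castSucc_lt_last _).ne
  · simp only [h1, h2, if_false]
    intro h3
    exact hc a b h1 h2 hab (Fin.castSucc_injective _ h3)

theorem isCritical_iff {V : Type} [Nonempty V] (G : SimpleGraph V) {K : ℕ} (hK : 1 ≤ K) :
    IsCritical (K + 1) G ↔ Crit G K := by
  constructor
  · rintro ⟨h1, h2⟩
    refine ⟨fun h => ?_, fun x => ?_⟩
    · have := SimpleGraph.chromaticNumber_le_iff_colorable.2 h
      rw [h1] at this
      have : K + 1 ≤ K := by exact_mod_cast this
      omega
    · rw [colOff_iff G K hK]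
      apply SimpleGraph.chromaticNumber_le_iff_colorable.1
      rw [h2 x]
      simp
  · rintro ⟨h1, h2⟩
    refine ⟨?_, fun x => ?_⟩
    · obtain ⟨x⟩ := ‹Nonempty V›
      have hle := SimpleGraph.chromaticNumber_le_iff_colorable.2 (colorable_succ (h2 x))
      apply le_antisymm hle
      by_contra hlt
      push Not at hlt
      apply h1
      apply SimpleGraph.chromaticNumber_le_iff_colorable.1
      have h3 : G.chromaticNumber < (K : ℕ∞) + 1 := by exact_mod_cast hlt
      exact (ENat.lt_add_one_iff (ENat.natCast_ne_top K)).1 h3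
    · have hle := SimpleGraph.chromaticNumber_le_iff_colorable.2 ((colOff_iff G K hK x).1 (h2 x))
      apply le_antisymm
      · simpa using hle
      · by_contra hlt
        push Not at hlt
        apply h1
        have h3 : (G.induce {x}ᶜ).chromaticNumber < ((K - 1 : ℕ) : ℕ∞) + 1 := by
          have e : (((K + 1 - 1 : ℕ)) : ℕ∞) = ((K - 1 : ℕ) : ℕ∞) + 1 := by
            have : K + 1 - 1 = (K - 1) + 1 := by omega
            rw [this]
            push_cast
            rfl
          rw [e] at hlt
          exact hlt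
        have h4 := SimpleGraph.chromaticNumber_le_iff_colorable.1
          ((ENat.lt_add_one_iff (ENat.natCast_ne_top (K - 1))).1 h3)
        rcases Nat.eq_or_lt_of_le hK with hK1 | hK1
        · -- `K = 1`
          subst hK1
          have h5 : ColOff G 0 x → False := by
            rintro ⟨c, -⟩
            exact (c x).elim0
          -- `G - x` has no vertex
          obtain ⟨C⟩ := h4
          have hempty : ∀ v : V, v = x := by
            intro v
            by_contra hv
            exact (C ⟨v, hv⟩).elim0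
          refine ⟨SimpleGraph.Coloring.mk (fun _ => 0) ?_⟩
          intro a b hab
          exact absurd ((hempty a).trans (hempty b).symm) hab.ne
        · have h5 : ColOff G (K - 1) x := (colOff_iff G (K - 1) (by omega) x).2 h4
          have h6 := colorable_succ h5
          have h7 : K - 1 + 1 = K := by omega
          rwa [h7] at h6

theorem pr_eq_two_mul {V : Type} [Fintype V] (G : SimpleGraph V) :
    pr G univ univ = 2 * G.edgeSet.ncard := by
  have h1 : G.edgeSet.ncard = G.edgeFinset.card := by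
    rw [Set.ncard_eq_toFinset_card', SimpleGraph.edgeFinset]
  rw [h1, ← SimpleGraph.sum_degrees_eq_twice_card_edges, pr_sum]
  refine sum_congr rfl fun x _ => ?_
  rw [← SimpleGraph.card_neighborFinset_eq_degree]
  congr 1
  ext y
  simp

/-- transport to `Fin n` -/
theorem transport {K n : ℕ} {V : Type} [Fintype V] (G : SimpleGraph V)
    (hn : Fintype.card V = n) (hG : Crit G K) :
    ∃ G' : SimpleGraph (Fin n), Crit G' K ∧ pr G' univ univ = pr G univ univ := by
  obtain ⟨φ⟩ : Nonempty (Fin n ≃ V) := by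
    rw [← hn]; exact ⟨(Fintype.equivFin V).symm⟩
  refine ⟨G.comap φ, ⟨?_, ?_⟩, ?_⟩
  · rintro ⟨C⟩
    apply hG.1
    refine ⟨SimpleGraph.Coloring.mk (fun v => C (φ.symm v)) ?_⟩
    intro a b hab
    apply C.valid
    simpa using hab
  · intro x
    obtain ⟨c, hc⟩ := hG.2 (φ x)
    refine ⟨fun v => c (φ v), ?_⟩
    intro a b ha hb hab
    exact hc _ _ (fun h => ha (φ.injective h)) (fun h => hb (φ.injective h)) hab
  · rw [pr_eq_sum, pr_eq_sum]
    rw [← Equiv.sum_comp φ]
    refine sum_congr rfl fun a _ => ?_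
    rw [← Equiv.sum_comp φ]
    refine sum_congr rfl fun b _ => ?_
    simp

/-- merging two vertices into others -/
theorem merge_colorable {K : ℕ} {V : Type} [Fintype V] (G : SimpleGraph V)
    (hn : Fintype.card V = K + 2) {b d s t : V} (hbd : b ≠ d) (hsb : s ≠ b) (hsd : s ≠ d)
    (htb : t ≠ b) (htd : t ≠ d) (h1 : ¬ G.Adj b s) (h2 : ¬ G.Adj d t)
    (h3 : s = t → ¬ G.Adj b d) : G.Colorable K := by
  let c : V → {v : V // v ≠ b ∧ v ≠ d} := fun v =>
    if hb : v = b then ⟨s, hsb, hsd⟩ else if hd : v = d then ⟨t, htb, htd⟩ else ⟨v, hb, hd⟩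
  have hcb : c b = ⟨s, hsb, hsd⟩ := by simp [c]
  have hcd : c d = ⟨t, htb, htd⟩ := by simp [c, Ne.symm hbd]
  have hco : ∀ v (hb : v ≠ b) (hd : v ≠ d), c v = ⟨v, hb, hd⟩ := by
    intro v hb hd; simp [c, hb, hd]
  have hval : ∀ {u v : V}, G.Adj u v → c u ≠ c v := by
    intro u v huv
    by_cases hub : u = b
    · subst hub
      rw [hcb]
      by_cases hvd : v = d
      · subst hvd
        rw [hcd]
        intro h
        exact h3 (congrArg Subtype.val h) huv
      · rw [hco v huv.ne' hvd]
        intro h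
        have : s = v := congrArg Subtype.val h
        subst this
        exact h1 huv
    · by_cases hud : u = d
      · subst hud
        rw [hcd]
        by_cases hvb : v = b
        · subst hvb
          rw [hcb]
          intro h
          exact h3 (congrArg Subtype.val h).symm huv.symm
        · rw [hco v hvb huv.ne']
          intro h
          have : t = v := congrArg Subtype.val h
          subst this
          exact h2 huv
      · rw [hco u hub hud]
        by_cases hvb : v = b
        · subst hvb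
          rw [hcb]
          intro h
          have : u = s := congrArg Subtype.val h
          subst this
          exact h1 huv.symm
        · by_cases hvd : v = d
          · subst hvd
            rw [hcd]
            intro h
            have : u = t := congrArg Subtype.val h
            subst this
            exact h2 huv.symm
          · rw [hco v hvb hvd]
            intro h
            exact huv.ne (congrArg Subtype.val h)
  have hcol := (SimpleGraph.Coloring.mk c hval).colorable
  have hcard : Fintype.card {v : V // v ≠ b ∧ v ≠ d} = K := by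
    rw [Fintype.card_subtype]
    have : (univ.filter fun v : V => v ≠ b ∧ v ≠ d) = (univ.erase b).erase d := by
      ext v
      simp only [mem_filter, mem_univ, true_and, mem_erase, and_true]
      tauto
    rw [this, card_erase_of_mem (by simp [Ne.symm hbd]), card_erase_of_mem (mem_univ _),
      card_univ, hn]
    omega
  rwa [hcard] at hcol

/-- there is no critical `k`-chromatic graph on `k + 1` vertices -/
theorem no_succ {K : ℕ} {V : Type} [Fintype V] (G : SimpleGraph V)
    (hn : Fintype.card V = K + 2) (hG : Crit G K) : False := by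
  have hpair : ∀ x : V, ∃ a b : V, a ≠ x ∧ b ≠ x ∧ a ≠ b ∧ ¬ G.Adj a b := by
    intro x
    obtain ⟨c, hc⟩ := hG.2 x
    have hcard : (univ : Finset (Fin K)).card < (univ.erase x : Finset V).card := by
      rw [card_erase_of_mem (mem_univ _), card_univ, card_univ, hn, Fintype.card_fin]
      omega
    obtain ⟨a, ha, b, hb, hab, habc⟩ := exists_ne_map_eq_of_card_lt_of_maps_to hcard
      (f := c) (fun _ _ => mem_univ _)
    have ha' := (mem_erase.1 ha).1
    have hb' := (mem_erase.1 hb).1
    exact ⟨a, b, ha', hb', hab, fun h => hc a b ha' hb' h habc⟩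
  have hdisj : ∀ a b c d : V, a ≠ b → c ≠ d → ¬ G.Adj a b → ¬ G.Adj c d → a ≠ c → a ≠ d →
      b ≠ c → b ≠ d → False := by
    intro a b c d hab hcd h1 h2 hac had hbc hbd
    apply hG.1
    exact merge_colorable G hn (b := b) (d := d) (s := a) (t := c) hbd hab had hbc.symm hcd
      (fun h => h1 h.symm) (fun h => h2 h.symm) (fun h => absurd h hac)
  obtain ⟨x⟩ : Nonempty V := by
    rw [← Fintype.card_pos_iff, hn]; omega
  obtain ⟨a, b, -, -, hab, hab'⟩ := hpair x
  -- a pair containing `b` but not `a`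
  obtain ⟨d, hda, hdb, hbd⟩ : ∃ d, d ≠ a ∧ d ≠ b ∧ ¬ G.Adj b d := by
    obtain ⟨p, q, hp, hq, hpq, hpq'⟩ := hpair a
    by_cases h1 : b = p
    · subst h1; exact ⟨q, hq, hpq.symm, hpq'⟩
    · by_cases h2 : b = q
      · subst h2; exact ⟨p, hp, hpq, fun h => hpq' h.symm⟩
      · exact (hdisj a b p q hab hpq hab' hpq' hp.symm hq.symm h1 h2).elim
  -- a pair avoiding `b`
  obtain ⟨p, q, hp, hq, hpq, hpq'⟩ := hpair b
  have had : ¬ G.Adj a d := by
    have h1 : a = p ∨ a = q := by
      by_contra h
      push Not at h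
      exact hdisj a b p q hab hpq hab' hpq' h.1 h.2 hp.symm hq.symm
    have h2 : d = p ∨ d = q := by
      by_contra h
      push Not at h
      exact hdisj d b p q hdb hpq (fun h => hbd h.symm) hpq' h.1 h.2 hp.symm hq.symm
    rcases h1 with rfl | rfl <;> rcases h2 with rfl | rfl
    · exact absurd rfl hda
    · exact hpq'
    · exact fun h => hpq' h.symm
    · exact absurd rfl hda
  apply hG.1
  exact merge_colorable G hn (b := b) (d := d) (s := a) (t := a) hdb.symm hab hda.symm
    hab hda.symm (fun h => hab' h.symm) (fun h => had h.symm) (fun _ => hbd)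

/-- a critical graph has at least `K + 1` vertices -/
theorem card_ge {K : ℕ} {V : Type} [Fintype V] (G : SimpleGraph V) (hG : Crit G K) :
    K + 1 ≤ Fintype.card V := by
  by_contra h
  apply hG.1
  exact SimpleGraph.Colorable.mono (by omega) (G.colorable_of_fintype)

theorem main (C ε : ℝ) (hε : 0 < ε) :
    ∃ k₀ : ℕ, ∀ k : ℕ, k₀ ≤ k → ∀ n : ℕ, (n : ℝ) ≤ C * k →
      (∃ G : SimpleGraph (Fin n), IsCritical k G) →
      |(fmin k n : ℝ) - (((k : ℝ) - 1) * n + ((n % k : ℕ) : ℝ) * (k - ((n % k : ℕ) : ℝ))) / 2| ≤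
        ε * (k : ℝ) ^ 2 := by
  obtain ⟨K₁, h1⟩ := lower_asymp C ε hε
  obtain ⟨K₂, h2⟩ := upper_asymp C ε hε
  refine ⟨max K₁ K₂ + 2, fun k hk n hn hex => ?_⟩
  obtain ⟨K, rfl⟩ : ∃ K, k = K + 1 := ⟨k - 1, by omega⟩
  have hK1 : 1 ≤ K := by omega
  have hkpos : (0 : ℝ) < (K : ℝ) + 1 := by positivity
  obtain ⟨G0, hG0⟩ := hex
  have hne : Nonempty (Fin n) := by
    by_contra hempty
    rw [not_nonempty_iff] at hempty
    have h3 : G0.Colorable 0 := ⟨SimpleGraph.Coloring.mk (fun v => (hempty.false v).elim)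
      (fun {v} => (hempty.false v).elim)⟩
    have h4 := SimpleGraph.chromaticNumber_le_iff_colorable.2 h3
    rw [hG0.1] at h4
    have : K + 1 ≤ 0 := by exact_mod_cast h4
    omega
  have hC0 : Crit G0 K := (isCritical_iff G0 hK1).1 hG0
  have hn1 : K + 1 ≤ n := by simpa using card_ge G0 hC0
  have hn2 : n ≠ K + 2 := by
    intro h
    exact no_succ G0 (by simpa using h) hC0
  have hnC : (n : ℝ) ≤ C * (K + 1) := by push_cast at hn; exact hn
  -- the minimum is attained
  have hmem : fmin (K + 1) n ∈ {e : ℕ | ∃ G : SimpleGraph (Fin n), IsCritical (K + 1) G ∧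
      G.edgeSet.ncard = e} := Nat.sInf_mem ⟨_, G0, hG0, rfl⟩
  obtain ⟨G1, hG1, hG1e⟩ := hmem
  have hlow := h1 K (by omega) (Fin n) G1 ((isCritical_iff G1 hK1).1 hG1)
    (by simpa using hnC)
  rw [pr_eq_two_mul, hG1e, Fintype.card_fin] at hlow
  obtain ⟨e, ⟨V, hV, G2, v, w, hcard, hpr, hcrit, -, -⟩, he⟩ := h2 K (by omega) n hn1 hn2 hnC
  obtain ⟨G3, hG3, hG3p⟩ := transport G2 hcard hcrit
  have hup : 2 * fmin (K + 1) n ≤ e := by
    have h5 : fmin (K + 1) n ≤ G3.edgeSet.ncard :=
      Nat.sInf_le ⟨G3, (isCritical_iff G3 hK1).2 hG3, rfl⟩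
    have h6 := pr_eq_two_mul G3
    omega
  have hup' : 2 * (fmin (K + 1) n : ℝ) ≤ e := by exact_mod_cast hup
  have hlow' : (K : ℝ) * n + hh (K + 1) n - ε * ((K : ℝ) + 1) ^ 2 ≤
      2 * (fmin (K + 1) n : ℝ) := by
    have e1 : ((2 * fmin (K + 1) n : ℕ) : ℝ) = 2 * (fmin (K + 1) n : ℝ) := by push_cast; ring
    rw [← e1]
    exact hlow
  have hhr : ((hh (K + 1) n : ℕ) : ℝ) =
      ((n % (K + 1) : ℕ) : ℝ) * (((K : ℝ) + 1) - ((n % (K + 1) : ℕ) : ℝ)) := by
    have h7 := (Nat.mod_lt n (Nat.succ_pos K)).le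
    unfold hh
    rw [Nat.cast_mul, Nat.cast_sub h7]
    push_cast
    ring
  have hε2 : 0 ≤ ε * ((K : ℝ) + 1) ^ 2 := by positivity
  push_cast
  rw [← hhr]
  rw [abs_le]
  constructor <;> nlinarith

end Pool.Agent.Ore
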