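import Pool.Agent.Lib_helper33.Ore.Count

/-!
# The lower bound with explicit parameters
-/

set_option autoImplicit false
set_option linter.unusedSectionVars false

open scoped Classical
open Finset

namespace Pool.Agent.Ore

variable {V : Type} [Fintype V] (G : SimpleGraph V)

theorem pr_sum (W Y : Finset V) :
    pr G W Y = ∑ x ∈ W, (Y.filter fun y => G.Adj x y).card := by
  unfold pr
  rw [card_filter, sum_product]
  refine sum_congr rfl fun x _ => ?_
  rw [card_filter]

/-- minimum degree -/
theorem deg_ge {K : ℕ} (hG : Crit G K) (x : V) :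
    K ≤ ((univ : Finset V).filter fun y => G.Adj x y).card := by
  obtain ⟨c, hc⟩ := hG.2 x
  by_contra hcon
  push Not at hcon
  have h1 : (((univ : Finset V).filter fun y => G.Adj x y).image c).card < K :=
    lt_of_le_of_lt card_image_le hcon
  obtain ⟨i, hi⟩ : ∃ i : Fin K, i ∉ ((univ : Finset V).filter fun y => G.Adj x y).image c := by
    by_contra hall
    push Not at hall
    have := card_le_card (show (univ : Finset (Fin K)) ⊆ _ from fun i _ => hall i)
    rw [card_univ, Fintype.card_fin] at this
    omega
  apply hG.1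
  refine ⟨SimpleGraph.Coloring.mk (fun v => if v = x then i else c v) ?_⟩
  intro a b hab
  by_cases ha : a = x <;> by_cases hb : b = x
  · subst ha; subst hb; exact absurd hab G.irrefl
  · simp only [ha, hb, if_true, if_false]
    intro h
    apply hi
    rw [mem_image]
    exact ⟨b, by simpa [ha] using hab, h.symm⟩
  · simp only [ha, hb, if_true, if_false]
    intro h
    apply hi
    rw [mem_image]
    exact ⟨a, by simpa [hb] using hab.symm, h⟩
  · simp only [ha, hb, if_false]
    exact hc a b ha hb hab

/-- the stuck set with its counting inequality -/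
theorem stuck_package {K : ℕ} (hG : Crit G K) (x : V) {L τ T : ℕ} (hT : 0 < T)
    (hB : ∀ t < T, Bd L (t + 1) ≤ τ) :
    ∃ S : Finset V, x ∈ S ∧
      K ≤ (S.filter fun y => G.Adj x y).card + (τ + Fintype.card V / (L + 1) + 1) ∧
      ∀ D ⊆ S, (K : ℤ) * D.card + hh (K + 1) D.card -
          2 * (D.card * ((τ + Fintype.card V / (L + 1) : ℕ) + 1) +
            (Fintype.card V / T : ℕ) * (K + 1)) ≤
        pr G D D + 2 * pr G D (S \ D) := by
  obtain ⟨c0, hc0⟩ := hG.2 x
  set c : V → Option (Fin K) := fun v => if v = x then none else some (c0 v) with hcdef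
  have hc : PCol G x c := by
    refine ⟨fun v => ?_, fun a b hab => ?_⟩
    · simp only [hcdef]
      by_cases hv : v = x <;> simp [hv]
    · simp only [hcdef]
      by_cases ha : a = x <;> by_cases hb : b = x
      · subst ha; subst hb; exact absurd hab G.irrefl
      · simp [ha, hb]
      · simp [ha, hb]
      · simp only [ha, hb, if_false, ne_eq, Option.some.injEq]
        exact hc0 a b ha hb hab
  obtain ⟨S, E, hxS, hxE, hE, hS⟩ := exists_stuck G hG.1 hc hT hB
  set ρ := τ + Fintype.card V / (L + 1) with hρ
  have hlack : ∀ s ∈ S, s ∉ E → (lack G c S s).card ≤ ρ + 1 := by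
    intro s hs hsE
    have h1 := hS s hs hsE
    have h2 : lack G c S s ⊆ insert none ((lackC G c S s).image some) := by
      intro i hi
      simp only [lack, mem_filter, mem_univ, true_and] at hi
      cases i with
      | none => exact mem_insert_self _ _
      | some i =>
        apply mem_insert_of_mem
        rw [mem_image]
        refine ⟨i, ?_, rfl⟩
        simp only [lackC, mem_filter, mem_univ, true_and]
        exact hi
    have h3 := card_le_card h2
    have h4 := card_insert_le (none : Option (Fin K)) ((lackC G c S s).image some)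
    have h5 : ((lackC G c S s).image some).card ≤ (lackC G c S s).card := card_image_le
    omega
  have hcard : Fintype.card (Option (Fin K)) = K + 1 := by simp
  have hlack2 : ∀ s, (lack G c S s).card ≤ K + 1 := by
    intro s
    have := card_le_univ (lack G c S s)
    rwa [hcard] at this
  have hEcard : E.card ≤ Fintype.card V / T := by
    rw [Nat.le_div_iff_mul_le hT]
    exact hE
  refine ⟨S, hxS, ?_, ?_⟩
  · -- neighbours of `x` in `S`
    have h1 := hlack x hxS hxE
    have h2 : (univ.filter fun i : Option (Fin K) => i ≠ none ∧ i ∉ lack G c S x).card ≤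
        (S.filter fun y => G.Adj x y).card := by
      have h3 : (univ.filter fun i : Option (Fin K) => i ≠ none ∧ i ∉ lack G c S x) ⊆
          (S.filter fun y => G.Adj x y).image c := by
        intro i hi
        simp only [mem_filter, mem_univ, true_and, lack, not_and, not_forall, not_not] at hi
        have hcx : c x = none := (hc.none x).2 rfl
        obtain ⟨u, hu, hu2, hu3⟩ := hi.2 (by rw [hcx]; exact Ne.symm hi.1)
        rw [mem_image]
        exact ⟨u, by simp [hu, hu3], hu2⟩
      exact (card_le_card h3).trans card_image_le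
    have h4 : K + 1 ≤ (univ.filter fun i : Option (Fin K) =>
        i ≠ none ∧ i ∉ lack G c S x).card + 1 + (lack G c S x).card := by
      have h5 : (univ : Finset (Option (Fin K))) ⊆
          (univ.filter fun i : Option (Fin K) => i ≠ none ∧ i ∉ lack G c S x) ∪ {none} ∪
            lack G c S x := by
        intro i _
        simp only [mem_union, mem_filter, mem_univ, true_and, mem_singleton]
        tauto
      have h6 := card_le_card h5
      rw [card_univ, hcard] at h6
      have h7 := card_union_le ((univ.filter fun i : Option (Fin K) =>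
        i ≠ none ∧ i ∉ lack G c S x) ∪ {none}) (lack G c S x)
      have h8 := card_union_le (univ.filter fun i : Option (Fin K) =>
        i ≠ none ∧ i ∉ lack G c S x) {none}
      rw [card_singleton] at h8
      omega
    omega
  · intro D hD
    have h1 := count_main G (ι := Option (Fin K)) (by rw [hcard]; omega) c hc.proper S D hD
    rw [hcard] at h1
    have h2 : ∑ s ∈ D, ((lack G c S s).card : ℤ) ≤
        D.card * ((ρ : ℕ) + 1) + (Fintype.card V / T : ℕ) * (K + 1) := by
      have e1 : ∀ s ∈ D, ((lack G c S s).card : ℤ) ≤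
          ((ρ : ℕ) + 1 : ℤ) + (if s ∈ E then ((K : ℤ) + 1) else 0) := by
        intro s hs
        split_ifs with hsE
        · have := hlack2 s
          have h3 : ((lack G c S s).card : ℤ) ≤ K + 1 := by exact_mod_cast this
          have h4 : (0 : ℤ) ≤ ρ := Int.natCast_nonneg _
          linarith
        · have := hlack s (hD hs) hsE
          have h3 : ((lack G c S s).card : ℤ) ≤ ρ + 1 := by exact_mod_cast this
          linarith
      calc ∑ s ∈ D, ((lack G c S s).card : ℤ)
          ≤ ∑ s ∈ D, (((ρ : ℕ) + 1 : ℤ) + (if s ∈ E then ((K : ℤ) + 1) else 0)) :=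
            sum_le_sum e1
        _ = D.card * ((ρ : ℕ) + 1) + ((D.filter fun s => s ∈ E).card : ℤ) * ((K : ℤ) + 1) := by
            rw [sum_add_distrib, sum_const, nsmul_eq_mul, ← sum_filter, sum_const, nsmul_eq_mul]
        _ ≤ _ := by
            have h3 : (D.filter fun s => s ∈ E).card ≤ Fintype.card V / T := by
              refine (card_le_card ?_).trans hEcard
              intro s hs
              exact (mem_filter.1 hs).2
            have h4 : ((D.filter fun s => s ∈ E).card : ℤ) ≤ (Fintype.card V / T : ℕ) := by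
              exact_mod_cast h3
            have h5 : (0 : ℤ) ≤ (K : ℤ) + 1 := by positivity
            have := mul_le_mul_of_nonneg_right h4 h5
            linarith
    have h3 : (((K + 1 : ℕ)) : ℤ) = K + 1 := by push_cast; ring
    rw [h3] at h1
    linarith

/-- the greedy union of stuck sets -/
theorem lower_core {K : ℕ} (hG : Crit G K) {ρ e0 η : ℕ} (hη : 0 < η)
    (hpack : ∀ x : V, ∃ S : Finset V, x ∈ S ∧
      K ≤ (S.filter fun y => G.Adj x y).card + (ρ + 1) ∧
      ∀ D ⊆ S, (K : ℤ) * D.card + hh (K + 1) D.card -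
          2 * (D.card * ((ρ : ℤ) + 1) + (e0 : ℤ) * (K + 1)) ≤
        pr G D D + 2 * pr G D (S \ D)) (n : ℕ) (hn : n = Fintype.card V) :
    (K : ℤ) * n + hh (K + 1) n -
      (n * (3 * (ρ : ℤ) + η + 4) + 2 * ((n / η : ℕ) * ((e0 : ℤ) * (K + 1)))) ≤
      pr G univ univ := by
  let P : Finset V → Prop := fun U => ∃ m : ℕ, m * η ≤ U.card ∧
    (K : ℤ) * U.card + hh (K + 1) U.card -
      2 * (U.card * ((ρ : ℤ) + 1) + m * ((e0 : ℤ) * (K + 1))) ≤ pr G U U
  have hP0 : P ∅ := by
    refine ⟨0, by simp, ?_⟩
    simp [hh_zero]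
  obtain ⟨U, hU, hmax⟩ := exists_max_image (univ.filter P) card ⟨∅, by simp [hP0]⟩
  have hPU : P U := (mem_filter.1 hU).2
  obtain ⟨m, hm, hmU⟩ := hPU
  -- every vertex outside `U` has many neighbours in `U`
  have hout : ∀ x ∉ U, K ≤ (U.filter fun y => G.Adj x y).card + (ρ + 1 + η) := by
    intro x hx
    obtain ⟨S, hxS, hdeg, hS⟩ := hpack x
    have hsmall : (S \ U).card < η := by
      by_contra hcon
      push Not at hcon
      have hD := hS (S \ U) sdiff_subset
      have hdisj : Disjoint U (S \ U) := disjoint_sdiff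
      have hcardU : (U ∪ (S \ U)).card = U.card + (S \ U).card := card_union_of_disjoint hdisj
      have hP' : P (U ∪ (S \ U)) := by
        refine ⟨m + 1, ?_, ?_⟩
        · rw [hcardU]; nlinarith
        · have h1 : pr G (U ∪ (S \ U)) (U ∪ (S \ U)) =
              pr G U U + 2 * pr G (S \ U) U + pr G (S \ U) (S \ U) := by
            rw [pr_union_left G _ _ _ hdisj, pr_union_right G _ _ _ hdisj,
              pr_union_right G _ _ _ hdisj, pr_symm G U (S \ U)]
            ring
          have h2 : pr G (S \ U) (S \ (S \ U)) ≤ pr G (S \ U) U := by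
            apply pr_mono G (Subset.refl _)
            intro v hv
            simp only [mem_sdiff, not_and, not_not] at hv
            exact hv.2 hv.1
          have h3 := hh_add_le (K + 1) U.card (S \ U).card (by omega)
          have h3' : (hh (K + 1) (U.card + (S \ U).card) : ℤ) ≤
              hh (K + 1) U.card + hh (K + 1) (S \ U).card := by exact_mod_cast h3
          have h2' : (pr G (S \ U) (S \ (S \ U)) : ℤ) ≤ pr G (S \ U) U := by exact_mod_cast h2
          rw [hcardU, h1]
          push_cast
          linarith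
      have h4 := hmax (U ∪ (S \ U)) (mem_filter.2 ⟨mem_univ _, hP'⟩)
      rw [hcardU] at h4
      omega
    have h5 : (S.filter fun y => G.Adj x y).card ≤
        (U.filter fun y => G.Adj x y).card + (S \ U).card := by
      have h6 : (S.filter fun y => G.Adj x y) ⊆ (U.filter fun y => G.Adj x y) ∪ (S \ U) := by
        intro y hy
        simp only [mem_filter, mem_union, mem_sdiff] at hy ⊢
        by_cases hyU : y ∈ U
        · exact Or.inl ⟨hyU, hy.2⟩
        · exact Or.inr ⟨hy.1, hyU⟩
      exact (card_le_card h6).trans (card_union_le _ _)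
    omega
  set W := (univ : Finset V) \ U with hW
  have hUW : Disjoint U W := disjoint_sdiff
  have huniv : U ∪ W = univ := by
    rw [hW]; exact union_sdiff_of_subset (subset_univ U)
  have hcardn : U.card + W.card = n := by
    rw [← card_union_of_disjoint hUW, huniv, card_univ, hn]
  have h1 : pr G univ univ = pr G U U + pr G W U + pr G W univ := by
    have e1 : pr G (U ∪ W) univ = pr G U univ + pr G W univ := pr_union_left G _ _ _ hUW
    have e2 : pr G U (U ∪ W) = pr G U U + pr G U W := pr_union_right G _ _ _ hUW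
    rw [huniv] at e1 e2
    rw [e1, e2, pr_symm G U W]
  have h2 : W.card * K ≤ pr G W univ := by
    rw [pr_sum]
    calc W.card * K = ∑ _x ∈ W, K := by rw [sum_const, smul_eq_mul]
      _ ≤ _ := sum_le_sum fun x _ => deg_ge G hG x
  have h3 : W.card * K ≤ pr G W U + W.card * (ρ + 1 + η) := by
    rw [pr_sum]
    calc W.card * K = ∑ _x ∈ W, K := by rw [sum_const, smul_eq_mul]
      _ ≤ ∑ x ∈ W, ((U.filter fun y => G.Adj x y).card + (ρ + 1 + η)) :=
          sum_le_sum fun x hx => hout x (mem_sdiff.1 hx).2
      _ = _ := by rw [sum_add_distrib, sum_const, smul_eq_mul]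
  have h4 := hh_add_le (K + 1) U.card W.card (by omega)
  rw [hcardn] at h4
  have h5 := hh_le (K + 1) W.card
  have hm2 : m ≤ n / η := by
    rw [Nat.le_div_iff_mul_le hη]
    omega
  have h2' : (W.card : ℤ) * K ≤ pr G W univ := by exact_mod_cast h2
  have h3' : (W.card : ℤ) * K ≤ pr G W U + W.card * (ρ + 1 + η) := by exact_mod_cast h3
  have h4' : (hh (K + 1) n : ℤ) ≤ hh (K + 1) U.card + hh (K + 1) W.card := by exact_mod_cast h4
  have h5' : (hh (K + 1) W.card : ℤ) ≤ W.card * (K + 1) := by exact_mod_cast h5
  have hm2' : (m : ℤ) ≤ (n / η : ℕ) := by exact_mod_cast hm2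
  have hcard' : (U.card : ℤ) + W.card = n := by exact_mod_cast hcardn
  have h6 : (m : ℤ) * ((e0 : ℤ) * (K + 1)) ≤ (n / η : ℕ) * ((e0 : ℤ) * (K + 1)) :=
    mul_le_mul_of_nonneg_right hm2' (by positivity)
  have hU0 : (0 : ℤ) ≤ U.card := Int.natCast_nonneg _
  have hW0 : (0 : ℤ) ≤ W.card := Int.natCast_nonneg _
  have hρ0 : (0 : ℤ) ≤ ρ := Int.natCast_nonneg _
  have hη0 : (0 : ℤ) ≤ η := Int.natCast_nonneg _
  have h1' : (pr G univ univ : ℤ) = pr G U U + pr G W U + pr G W univ := by exact_mod_cast h1
  rw [h1']
  have e1 : (n : ℤ) * (3 * ρ + η + 4) = U.card * (3 * ρ + η + 4) + W.card * (3 * ρ + η + 4) := by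
    rw [← hcard']; ring
  have e2 : (K : ℤ) * n = K * U.card + K * W.card := by rw [← hcard']; ring
  have e3 : 0 ≤ (U.card : ℤ) * ρ := mul_nonneg hU0 hρ0
  have e4 : 0 ≤ (U.card : ℤ) * η := mul_nonneg hU0 hη0
  have e5 : 0 ≤ (W.card : ℤ) * ρ := mul_nonneg hW0 hρ0
  generalize (n / η : ℕ) = q at *
  nlinarith

/-- the lower bound with parameters -/
theorem lower_bound {K : ℕ} (hG : Crit G K) {L τ T η : ℕ} (hT : 0 < T) (hη : 0 < η)
    (hB : ∀ t < T, Bd L (t + 1) ≤ τ) (n : ℕ) (hn : n = Fintype.card V) :
    (K : ℤ) * n + hh (K + 1) n -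
      (n * (3 * ((τ + n / (L + 1) : ℕ) : ℤ) + η + 4) +
        2 * ((n / η : ℕ) * (((n / T : ℕ) : ℤ) * (K + 1)))) ≤
      pr G univ univ := by
  subst hn
  exact lower_core G hG (ρ := τ + Fintype.card V / (L + 1)) (e0 := Fintype.card V / T) hη
    (fun x => stuck_package G hG x hT hB) _ rfl

end Pool.Agent.Ore
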