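import Pool.Agent.Lib_helper33.Ore.Absorb

/-!
# The stuck set
-/

set_option autoImplicit false
set_option linter.unusedSectionVars false

open scoped Classical
open Finset

namespace Pool.Agent.Ore

variable {V : Type} [Fintype V] (G : SimpleGraph V) {K : ℕ}

/-- classes, not the class of `s`, in which `s` has no neighbour belonging to `S` -/
noncomputable def lackC (c : V → Option (Fin K)) (S : Finset V) (s : V) : Finset (Fin K) :=
  univ.filter fun i => c s ≠ some i ∧ ∀ u ∈ S, c u = some i → ¬ G.Adj s u

theorem clo_mono (c : V → Option (Fin K)) (x : V) (L τ : ℕ) {s t : ℕ} (h : s ≤ t) :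
    clo G c x L τ s ⊆ clo G c x L τ t :=
  (monotone_nat_of_le_succ (f := clo G c x L τ) (clo_succ_mono G c x L τ)) h

/-- some step of the closure adds few vertices -/
theorem exists_slow (c : V → Option (Fin K)) (x : V) (L τ T : ℕ) (hT : 0 < T) :
    ∃ t < T, (clo G c x L τ (t + 1) \ clo G c x L τ t).card * T ≤ Fintype.card V := by
  by_contra hcon
  push Not at hcon
  have h1 : ∀ m ≤ T, ∑ t ∈ range m, (clo G c x L τ (t + 1) \ clo G c x L τ t).card =
      (clo G c x L τ m).card := by
    intro m
    induction m with
    | zero => intro _; simp [clo]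
    | succ m ih =>
      intro hm
      rw [sum_range_succ, ih (by omega)]
      have := card_sdiff_add_card_eq_card (clo_succ_mono G c x L τ m)
      omega
  have h2 := h1 T le_rfl
  have h3 : (clo G c x L τ T).card ≤ Fintype.card V := card_le_univ _
  have h4 : ∑ t ∈ range T, Fintype.card V <
      ∑ t ∈ range T, (clo G c x L τ (t + 1) \ clo G c x L τ t).card * T := by
    apply sum_lt_sum_of_nonempty
    · exact ⟨0, by simpa using hT⟩
    · intro t ht
      exact hcon t (by simpa using ht)
  rw [sum_const, card_range, smul_eq_mul, ← sum_mul, h2] at h4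
  nlinarith

theorem large_classes (c : V → Option (Fin K)) (L : ℕ) :
    (univ.filter fun i : Fin K => L < (cls c i).card).card * (L + 1) ≤ Fintype.card V := by
  have h1 : ∑ i : Fin K, (cls c i).card ≤ Fintype.card V := by
    rw [← card_biUnion (by
      intro i _ j _ hij
      rw [Function.onFun, Finset.disjoint_left]
      intro v hv hv'
      simp only [cls, mem_filter, mem_univ, true_and] at hv hv'
      rw [hv] at hv'
      injection hv' with hv'
      exact hij hv')]
    exact card_le_univ _
  refine le_trans ?_ h1
  calc (univ.filter fun i : Fin K => L < (cls c i).card).card * (L + 1)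
      = ∑ i ∈ univ.filter (fun i : Fin K => L < (cls c i).card), (L + 1) := by
        rw [sum_const, smul_eq_mul]
    _ ≤ ∑ i ∈ univ.filter (fun i : Fin K => L < (cls c i).card), (cls c i).card := by
        apply sum_le_sum
        intro i hi
        have := (mem_filter.1 hi).2
        omega
    _ ≤ ∑ i : Fin K, (cls c i).card :=
        sum_le_sum_of_subset (filter_subset _ _)

/-- the stuck set -/
theorem exists_stuck (hG : ¬ G.Colorable K) {x : V} {c : V → Option (Fin K)} (hc : PCol G x c)
    {L τ T : ℕ} (hT : 0 < T) (hB : ∀ t < T, Bd L (t + 1) ≤ τ) :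
    ∃ S E : Finset V, x ∈ S ∧ x ∉ E ∧ E.card * T ≤ Fintype.card V ∧
      ∀ s ∈ S, s ∉ E → (lackC G c S s).card ≤ τ + Fintype.card V / (L + 1) := by
  obtain ⟨t, htT, ht⟩ := exists_slow G c x L τ T hT
  set M := clo G c x L τ t with hM
  have hxM : ∀ m, x ∉ clo G c x L τ m := by
    intro m
    cases m with
    | zero => simp [clo]
    | succ m => simp [clo]
  refine ⟨univ \ M, clo G c x L τ (t + 1) \ M, ?_, ?_, ht, ?_⟩
  · simpa using hxM t
  · intro h
    exact hxM _ (mem_sdiff.1 h).1
  · intro s hs hsE
    have hsM : s ∉ M := by simpa using hs
    have hg : (good G c L M s).card < τ := by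
      by_cases hsx : s = x
      · subst hsx
        exact x_stuck G hG hc t (hB t htT)
      · by_contra hcon
        push Not at hcon
        apply hsE
        rw [mem_sdiff]
        refine ⟨?_, hsM⟩
        simp only [clo, mem_filter, mem_univ, true_and]
        exact ⟨hsx, hcon⟩
    have hlarge : (univ.filter fun i : Fin K => L < (cls c i).card).card ≤
        Fintype.card V / (L + 1) := by
      rw [Nat.le_div_iff_mul_le (by omega)]
      exact large_classes c L
    have hsub : lackC G c (univ \ M) s ⊆ good G c L M s ∪
        univ.filter fun i : Fin K => L < (cls c i).card := by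
      intro i hi
      simp only [lackC, mem_filter, mem_univ, true_and] at hi
      rw [mem_union]
      by_cases hL : L < (cls c i).card
      · right; simpa using hL
      · left
        simp only [good, mem_filter, mem_univ, true_and]
        refine ⟨by omega, hi.1, ?_⟩
        intro u hu
        simp only [nb, mem_filter, mem_univ, true_and] at hu
        by_contra huM
        exact hi.2 u (by simpa using huM) hu.2 hu.1
    have := card_le_card hsub
    have h2 := card_union_le (good G c L M s) (univ.filter fun i : Fin K => L < (cls c i).card)
    omega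

end Pool.Agent.Ore
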