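import Pool.Agent.Lib_helper33.Ore.Count

/-!
# Constructions: join with a vertex, Hajós join with a complete graph
-/

set_option autoImplicit false
set_option linter.unusedSectionVars false

open scoped Classical
open Finset

namespace Pool.Agent.Ore

/-- `c` is a colouring of `G` with the edge `vw` deleted -/
def ColMinus {V : Type} (G : SimpleGraph V) (K : ℕ) (v w : V) : Prop :=
  ∃ c : V → Fin K, ∀ a b, G.Adj a b → c a = c b → (a = v ∧ b = w) ∨ (a = w ∧ b = v)

/-- there is a vertex-critical graph with a critical edge, `n` vertices and `e` ordered
adjacent pairs -/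
def Good (K n e : ℕ) : Prop :=
  ∃ (V : Type) (_ : Fintype V) (G : SimpleGraph V) (v w : V), Fintype.card V = n ∧
    pr G univ univ = e ∧ Crit G K ∧ G.Adj v w ∧ ColMinus G K v w

theorem pr_eq_sum {V : Type} [Fintype V] (G : SimpleGraph V) :
    pr G univ univ = ∑ a, ∑ b, if G.Adj a b then 1 else 0 := by
  unfold pr
  rw [card_filter, sum_product]

theorem ColMinus.eq {V : Type} {G : SimpleGraph V} {K : ℕ} (hG : ¬ G.Colorable K) {v w : V}
    {c : V → Fin K} (hc : ∀ a b, G.Adj a b → c a = c b → (a = v ∧ b = w) ∨ (a = w ∧ b = v)) :
    c v = c w := by
  by_contra h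
  apply hG
  refine ⟨SimpleGraph.Coloring.mk c ?_⟩
  intro a b hab hab2
  rcases hc a b hab hab2 with ⟨rfl, rfl⟩ | ⟨rfl, rfl⟩
  · exact h hab2
  · exact h hab2.symm

/-! ## complete graphs -/

theorem good_complete (K : ℕ) (hK : 1 ≤ K) : Good K (K + 1) ((K + 1) * K) := by
  obtain ⟨m, rfl⟩ : ∃ m, K = m + 1 := ⟨K - 1, by omega⟩
  have hoff : ∀ x : Fin (m + 2), ∃ c : Fin (m + 2) → Fin (m + 1),
      ∀ a b, a ≠ x → b ≠ x → a ≠ b → c a ≠ c b := by
    intro x
    refine ⟨fun a => if h : a = x then 0 else (finSuccEquiv' x a).get (by
      rw [Option.isSome_iff_ne_none]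
      intro h2
      apply h
      have : finSuccEquiv' x a = finSuccEquiv' x x := by rw [h2, finSuccEquiv'_at]
      exact (finSuccEquiv' x).injective this), ?_⟩
    intro a b ha hb hab h
    simp only [ha, hb, dif_neg, not_false_iff] at h
    apply hab
    apply (finSuccEquiv' x).injective
    exact Option.get_inj.1 h
  have hadj : (⊤ : SimpleGraph (Fin (m + 2))).Adj 0 1 := by
    simp
  refine ⟨Fin (m + 2), inferInstance, ⊤, 0, 1, by simp, ?_, ⟨?_, ?_⟩, hadj, ?_⟩
  · rw [pr_eq_sum]
    refine (sum_congr rfl fun a _ => ?_).trans
      (by simp : ∑ _a : Fin (m + 2), (m + 1) = (m + 1 + 1) * (m + 1))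
    have h2 : ∑ b : Fin (m + 2), (if a ≠ b then 1 else 0 : ℕ) = m + 1 := by
      rw [← card_filter, filter_ne, card_erase_of_mem (mem_univ _)]
      simp
    refine (sum_congr rfl fun b _ => ?_).trans h2
    by_cases hab : a = b
    · rw [if_neg (by rw [hab]; exact SimpleGraph.irrefl _), if_neg (by simpa using hab)]
    · rw [if_pos (show (⊤ : SimpleGraph (Fin (m + 2))).Adj a b from hab), if_pos hab]
  · intro h
    obtain ⟨C⟩ := h
    have hinj : Function.Injective C := by
      intro a b hab
      by_contra hne
      exact C.valid (show (⊤ : SimpleGraph (Fin (m + 2))).Adj a b from hne) hab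
    have := Fintype.card_le_of_injective C hinj
    simp at this
  · intro x
    obtain ⟨c, hc⟩ := hoff x
    exact ⟨c, fun a b ha hb hab => hc a b ha hb hab.ne⟩
  · -- colour `1` like `0`
    obtain ⟨c, hc⟩ := hoff 1
    refine ⟨fun a => if a = 1 then c 0 else c a, ?_⟩
    intro a b hab h
    have hne : a ≠ b := hab.ne
    by_cases ha : a = 1 <;> by_cases hb : b = 1
    · exact absurd (ha.trans hb.symm) hne
    · simp only [ha, hb, if_true, if_false] at h
      by_cases hb0 : b = 0
      · right; exact ⟨ha, hb0⟩
      · exact absurd h (hc 0 b (by simp) hb (Ne.symm hb0))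
    · simp only [ha, hb, if_true, if_false] at h
      by_cases ha0 : a = 0
      · left; exact ⟨ha0, hb⟩
      · exact absurd h (hc a 0 ha (by simp) ha0)
    · simp only [ha, hb, if_false] at h
      exact absurd h (hc a b ha hb hne)

/-! ## join with a vertex -/

/-- adjacency of the join with one vertex -/
def joinAdj {V : Type} (G : SimpleGraph V) : Option V → Option V → Prop
  | some a, some b => G.Adj a b
  | some _, none => True
  | none, some _ => True
  | none, none => False

/-- join with one vertex -/
def joinG {V : Type} (G : SimpleGraph V) : SimpleGraph (Option V) where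
  Adj := joinAdj G
  symm := by
    constructor
    rintro (_ | a) (_ | b) h
    · exact h
    · trivial
    · trivial
    · exact G.adj_symm h
  loopless := by
    constructor
    rintro (_ | a) h
    · exact h
    · exact G.irrefl h

theorem good_join {K n e : ℕ} (h : Good K n e) : Good (K + 1) (n + 1) (e + 2 * n) := by
  obtain ⟨V, _, G, v, w, hn, he, ⟨hG1, hG2⟩, hvw, c0, hc0⟩ := h
  refine ⟨Option V, inferInstance, joinG G, some v, some w, by simp [hn], ?_, ⟨?_, ?_⟩, hvw, ?_⟩
  · rw [pr_eq_sum, Fintype.sum_option, Fintype.sum_option]
    simp_rw [Fintype.sum_option]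
    have e1 : ∀ a : V, (if (joinG G).Adj (some a) none then 1 else 0 : ℕ) = 1 := by
      intro a
      rw [if_pos]
      trivial
    have e2 : ∀ a : V, (if (joinG G).Adj none (some a) then 1 else 0 : ℕ) = 1 := by
      intro a
      rw [if_pos]
      trivial
    have e3 : (if (joinG G).Adj none none then 1 else 0 : ℕ) = 0 := by
      rw [if_neg]
      exact fun h => h
    have e4 : ∀ a b : V, (if (joinG G).Adj (some a) (some b) then 1 else 0 : ℕ) =
        if G.Adj a b then 1 else 0 := fun a b => rfl
    simp_rw [e1, e2, e3, e4, sum_add_distrib]
    rw [← pr_eq_sum, he]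
    simp [hn]
    omega
  · intro hcol
    obtain ⟨C⟩ := hcol
    apply hG1
    -- colours different from `C none`
    let φ : V → {i : Fin (K + 1) // i ≠ C none} := fun a => ⟨C (some a), by
      intro h
      exact C.valid (show (joinG G).Adj (some a) none from trivial) h⟩
    have hval : ∀ {a b : V}, G.Adj a b → φ a ≠ φ b := by
      intro a b hab h
      have h2 := congrArg Subtype.val h
      exact C.valid (show (joinG G).Adj (some a) (some b) from hab) h2
    have hcol : G.Colorable (Fintype.card {i : Fin (K + 1) // i ≠ C none}) :=
      (SimpleGraph.Coloring.mk φ hval).colorable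
    have hcard : Fintype.card {i : Fin (K + 1) // i ≠ C none} = K := by
      rw [Fintype.card_subtype_compl]
      simp
    rwa [hcard] at hcol
  · intro x
    cases x with
    | none =>
      -- `G` itself is `(K+1)`-colourable: use a colouring off `v`
      obtain ⟨c, hc⟩ := hG2 v
      refine ⟨fun o => match o with
        | none => 0
        | some a => if a = v then Fin.last K else (c a).castSucc, ?_⟩
      rintro (_ | a) (_ | b) ha hb hab
      · exact absurd rfl ha
      · exact absurd rfl ha
      · exact absurd rfl hb
      · have hab' : G.Adj a b := hab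
        by_cases h1 : a = v <;> by_cases h2 : b = v
        · exact absurd (h1.trans h2.symm) hab'.ne
        · simp only [h1, h2, if_true, if_false]
          exact (Fin.castSucc_lt_last _).ne'
        · simp only [h1, h2, if_true, if_false]
          exact (Fin.castSucc_lt_last _).ne
        · simp only [h1, h2, if_false]
          intro h3
          exact hc a b h1 h2 hab' (Fin.castSucc_injective _ h3)
    | some x =>
      obtain ⟨c, hc⟩ := hG2 x
      refine ⟨fun o => match o with
        | none => Fin.last K
        | some a => (c a).castSucc, ?_⟩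
      rintro (_ | a) (_ | b) ha hb hab
      · exact absurd hab (joinG G).irrefl
      · exact (Fin.castSucc_lt_last _).ne'
      · exact (Fin.castSucc_lt_last _).ne
      · intro h3
        exact hc a b (fun h => ha (by rw [h])) (fun h => hb (by rw [h])) hab
          (Fin.castSucc_injective _ h3)
  · refine ⟨fun o => match o with
      | none => Fin.last K
      | some a => (c0 a).castSucc, ?_⟩
    rintro (_ | a) (_ | b) hab h
    · exact absurd hab (joinG G).irrefl
    · exact absurd h (Fin.castSucc_lt_last _).ne'
    · exact absurd h (Fin.castSucc_lt_last _).ne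
    · rcases hc0 a b hab (Fin.castSucc_injective _ h) with ⟨h1, h2⟩ | ⟨h1, h2⟩
      · left; exact ⟨by rw [h1], by rw [h2]⟩
      · right; exact ⟨by rw [h1], by rw [h2]⟩

/-! ## Hajós join with a complete graph -/

/-- adjacency of the Hajós join of `G` (edge `vw`) with a complete graph on
`v, none, some i` (edge `v none`) -/
def hajAdj {V : Type} (G : SimpleGraph V) (v w : V) (m : ℕ) :
    V ⊕ Option (Fin m) → V ⊕ Option (Fin m) → Prop
  | .inl a, .inl b => G.Adj a b ∧ ¬ ((a = v ∧ b = w) ∨ (a = w ∧ b = v))
  | .inl a, .inr none => a = w
  | .inr none, .inl a => a = w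
  | .inl a, .inr (some _) => a = v
  | .inr (some _), .inl a => a = v
  | .inr o, .inr o' => o ≠ o'

/-- Hajós join with a complete graph -/
def hajG {V : Type} (G : SimpleGraph V) (v w : V) (m : ℕ) :
    SimpleGraph (V ⊕ Option (Fin m)) where
  Adj := hajAdj G v w m
  symm := by
    constructor
    rintro (a | _ | i) (b | _ | j) h
    · exact ⟨h.1.symm, fun h' => h.2 (by tauto)⟩
    · exact h
    · exact h
    · exact h
    · exact Ne.symm h
    · exact Ne.symm h
    · exact h
    · exact Ne.symm h
    · exact Ne.symm h
  loopless := by
    constructor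
    rintro (a | _ | i) h
    · exact G.irrefl h.1
    · exact h rfl
    · exact h rfl

theorem haj_inr {V : Type} (G : SimpleGraph V) (v w : V) (m : ℕ) (o o' : Option (Fin m)) :
    (hajG G v w m).Adj (.inr o) (.inr o') ↔ o ≠ o' := by
  cases o <;> cases o' <;> rfl

theorem exists_equiv (m : ℕ) (t : Fin (m + 1)) :
    ∃ e : Option (Fin m) ≃ Fin (m + 1), e none = t :=
  ⟨(finSuccEquiv' t).symm, by simp⟩

theorem good_haj {m n e : ℕ} (hm : 1 ≤ m) (h : Good (m + 1) n e) :
    Good (m + 1) (n + (m + 1)) (e + m * (m + 3)) := by
  obtain ⟨V, _, G, v, w, hn, he, ⟨hG1, hG2⟩, hvw, c0, hc0⟩ := h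
  have hc0vw : c0 v = c0 w := ColMinus.eq hG1 hc0
  obtain ⟨e0, he0⟩ := exists_equiv m (c0 v)
  have hne : v ≠ w := hvw.ne
  -- combine a colouring of `V` with one of `Option (Fin m)`
  refine ⟨V ⊕ Option (Fin m), inferInstance, hajG G v w m, .inl w, .inr none,
    by simp [hn], ?_, ⟨?_, ?_⟩, rfl, ?_⟩
  · rw [pr_eq_sum, Fintype.sum_sum_type, Fintype.sum_option]
    simp_rw [Fintype.sum_sum_type, Fintype.sum_option]
    have a1 : ∀ a : V, (if (hajG G v w m).Adj (.inl a) (.inr none) then 1 else 0 : ℕ) =
        if a = w then 1 else 0 := fun a => rfl
    have a2 : ∀ (a : V) (i : Fin m),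
        (if (hajG G v w m).Adj (.inl a) (.inr (some i)) then 1 else 0 : ℕ) =
        if a = v then 1 else 0 := fun a i => rfl
    have a3 : ∀ a : V, (if (hajG G v w m).Adj (.inr none) (.inl a) then 1 else 0 : ℕ) =
        if a = w then 1 else 0 := fun a => rfl
    have a4 : ∀ (i : Fin m) (a : V),
        (if (hajG G v w m).Adj (.inr (some i)) (.inl a) then 1 else 0 : ℕ) =
        if a = v then 1 else 0 := fun i a => rfl
    have a5 : ∀ o o' : Option (Fin m),
        (if (hajG G v w m).Adj (.inr o) (.inr o') then 1 else 0 : ℕ) =
        if o = o' then 0 else 1 := by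
      intro o o'
      by_cases h : o = o'
      · rw [if_neg, if_pos h]
        rw [haj_inr]
        exact fun h' => h' h
      · rw [if_pos, if_neg h]
        rw [haj_inr]
        exact h
    have a6 : ∑ a, ∑ b, (if (hajG G v w m).Adj (.inl a) (.inl b) then 1 else 0 : ℕ) + 2 = e := by
      have b1 : ∀ a b, (if (hajG G v w m).Adj (.inl a) (.inl b) then 1 else 0 : ℕ) +
          ((if a = v ∧ b = w then 1 else 0) + if a = w ∧ b = v then 1 else 0) =
          if G.Adj a b then 1 else 0 := by
        intro a b
        have hiff : (hajG G v w m).Adj (.inl a) (.inl b) ↔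
            G.Adj a b ∧ ¬ ((a = v ∧ b = w) ∨ (a = w ∧ b = v)) := Iff.rfl
        by_cases h1 : a = v ∧ b = w
        · have h2 : ¬ (a = w ∧ b = v) := fun h => hne (h1.1.symm.trans h.1)
          have h3 : G.Adj a b := by rw [h1.1, h1.2]; exact hvw
          rw [if_neg (by rw [hiff]; tauto), if_pos h1, if_neg h2, if_pos h3]
        · by_cases h2 : a = w ∧ b = v
          · have h3 : G.Adj a b := by rw [h2.1, h2.2]; exact hvw.symm
            rw [if_neg (by rw [hiff]; tauto), if_neg h1, if_pos h2, if_pos h3]
          · rw [if_neg h1, if_neg h2]
            by_cases h3 : G.Adj a b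
            · rw [if_pos (by rw [hiff]; tauto), if_pos h3]
            · rw [if_neg (by rw [hiff]; tauto), if_neg h3]
      have b2 : ∑ a, ∑ b, ((if (hajG G v w m).Adj (.inl a) (.inl b) then 1 else 0 : ℕ) +
          ((if a = v ∧ b = w then 1 else 0) + if a = w ∧ b = v then 1 else 0)) = e := by
        simp_rw [b1]
        rw [← pr_eq_sum, he]
      have b3 : ∀ x y : V, ∑ a : V, ∑ b : V, (if a = x ∧ b = y then 1 else 0 : ℕ) = 1 := by
        intro x y
        rw [sum_eq_single x]
        · simp
        · intro a _ ha
          simp [ha]
        · simp
      simp_rw [sum_add_distrib] at b2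
      rw [b3, b3] at b2
      omega
    simp_rw [a1, a2, a3, a4, a5, sum_add_distrib]
    have b4 : ∑ a : V, (if a = w then 1 else 0 : ℕ) = 1 := by simp
    have b5 : ∑ a : V, ∑ _i : Fin m, (if a = v then 1 else 0 : ℕ) = m := by
      rw [sum_comm]; simp
    have b6 : ∑ _i : Fin m, ∑ a : V, (if a = v then 1 else 0 : ℕ) = m := by simp
    have b7 : (if True then 0 else 1 : ℕ) = 0 := by simp
    have b8 : ∑ i : Fin m, (if (none : Option (Fin m)) = some i then 0 else 1 : ℕ) = m := by
      simp
    have b9 : ∑ i : Fin m, (if (some i : Option (Fin m)) = none then 0 else 1 : ℕ) = m := by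
      simp
    have b10 : ∑ i : Fin m, ∑ j : Fin m,
        (if (some i : Option (Fin m)) = some j then 0 else 1 : ℕ) = m * (m - 1) := by
      have : ∀ i : Fin m, ∑ j : Fin m,
          (if (some i : Option (Fin m)) = some j then 0 else 1 : ℕ) = m - 1 := by
        intro i
        have c1 : ∀ j : Fin m, (if (some i : Option (Fin m)) = some j then 0 else 1 : ℕ) =
            if i ≠ j then 1 else 0 := by
          intro j
          by_cases h : i = j <;> simp [h]
        simp_rw [c1]
        rw [← card_filter, filter_ne, card_erase_of_mem (mem_univ _)]
        simp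
      simp_rw [this]
      simp
    rw [b4, b5, b6, b7, b8, b9, b10]
    obtain ⟨m', rfl⟩ : ∃ m', m = m' + 1 := ⟨m - 1, by omega⟩
    simp only [Nat.add_sub_cancel]
    rw [← a6]
    ring
  · rintro ⟨C⟩
    have hinj : Function.Injective fun o : Option (Fin m) => C (.inr o) := by
      intro o o' h
      by_contra hne
      exact C.valid ((haj_inr G v w m o o').2 hne) h
    have hbij : Function.Bijective fun o : Option (Fin m) => C (.inr o) := by
      rw [Fintype.bijective_iff_injective_and_card]
      exact ⟨hinj, by simp⟩
    obtain ⟨o, ho⟩ := hbij.2 (C (.inl v))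
    have ho' : o = none := by
      cases o with
      | none => rfl
      | some i =>
        exact absurd ho.symm (C.valid (show (hajG G v w m).Adj (.inl v) (.inr (some i)) from rfl))
    subst ho'
    have hw : C (.inl w) ≠ C (.inr none) :=
      C.valid (show (hajG G v w m).Adj (.inl w) (.inr none) from rfl)
    apply hG1
    refine ⟨SimpleGraph.Coloring.mk (fun a => C (.inl a)) ?_⟩
    intro a b hab h
    by_cases hcase : (a = v ∧ b = w) ∨ (a = w ∧ b = v)
    · rcases hcase with ⟨rfl, rfl⟩ | ⟨rfl, rfl⟩
      · exact hw (by rw [← h]; exact ho.symm)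
      · exact hw (by rw [h]; exact ho.symm)
    · exact C.valid (show (hajG G v w m).Adj (.inl a) (.inl b) from ⟨hab, hcase⟩) h
  · rintro (x | o)
    · by_cases hxv : x = v
      · subst hxv
        obtain ⟨c, hc⟩ := hG2 x
        obtain ⟨t, ht⟩ : ∃ t : Fin (m + 1), t ≠ c w := by
          have : Nontrivial (Fin (m + 1)) := Fin.nontrivial_iff_two_le.2 (by omega)
          exact exists_ne _
        obtain ⟨e1, he1⟩ := exists_equiv m t
        refine ⟨Sum.elim c e1, ?_⟩
        rintro (a | _ | i) (b | _ | j) ha hb hab
        · exact hc a b (fun h => ha (by rw [h])) (fun h => hb (by rw [h])) hab.1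
        · have : a = w := hab
          subst this
          simp only [Sum.elim_inl, Sum.elim_inr, he1]
          exact ht.symm
        · have : a = x := hab
          exact absurd (by rw [this]) ha
        · have : b = w := hab
          subst this
          simp only [Sum.elim_inl, Sum.elim_inr, he1]
          exact ht
        · exact absurd rfl (show (none : Option (Fin m)) ≠ none from hab)
        · simp only [Sum.elim_inr]
          exact fun h => by simpa using e1.injective h
        · have : b = x := hab
          exact absurd (by rw [this]) hb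
        · simp only [Sum.elim_inr]
          exact fun h => by simpa using e1.injective h
        · simp only [Sum.elim_inr]
          exact fun h => (show (some i : Option (Fin m)) ≠ some j from hab) (e1.injective h)
      · obtain ⟨c, hc⟩ := hG2 x
        obtain ⟨e1, he1⟩ := exists_equiv m (c v)
        refine ⟨Sum.elim c e1, ?_⟩
        have hvx : v ≠ x := Ne.symm hxv
        rintro (a | _ | i) (b | _ | j) ha hb hab
        · exact hc a b (fun h => ha (by rw [h])) (fun h => hb (by rw [h])) hab.1
        · have : a = w := hab
          subst this
          simp only [Sum.elim_inl, Sum.elim_inr, he1]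
          exact hc a v (fun h => ha (by rw [h])) hvx hvw.symm
        · have : a = v := hab
          subst this
          simp only [Sum.elim_inl, Sum.elim_inr]
          intro h
          rw [← he1] at h
          simpa using e1.injective h
        · have : b = w := hab
          subst this
          simp only [Sum.elim_inl, Sum.elim_inr, he1]
          exact hc v b hvx (fun h => hb (by rw [h])) hvw
        · exact absurd rfl (show (none : Option (Fin m)) ≠ none from hab)
        · simp only [Sum.elim_inr]
          exact fun h => by simpa using e1.injective h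
        · have : b = v := hab
          subst this
          simp only [Sum.elim_inl, Sum.elim_inr]
          intro h
          rw [← he1] at h
          simpa using e1.injective h
        · simp only [Sum.elim_inr]
          exact fun h => by simpa using e1.injective h
        · simp only [Sum.elim_inr]
          exact fun h => (show (some i : Option (Fin m)) ≠ some j from hab) (e1.injective h)
    · -- delete a new vertex
      have key : ∀ d : Option (Fin m) → Fin (m + 1),
          (∀ o1 o2 : Option (Fin m), o1 ≠ o → o2 ≠ o → o1 ≠ o2 → d o1 ≠ d o2) →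
          (∀ i, some i ≠ o → c0 v ≠ d (some i)) → (none ≠ o → c0 w ≠ d none) →
          ColOff (hajG G v w m) (m + 1) (.inr o) := by
        intro d hd1 hd2 hd3
        refine ⟨Sum.elim c0 d, ?_⟩
        rintro (a | o1) (b | o2) ha hb hab
        · intro h
          exact hab.2 (hc0 a b hab.1 h)
        · have ho2 : o2 ≠ o := fun h => hb (by rw [h])
          cases o2 with
          | none =>
            have : a = w := hab
            subst this
            exact hd3 ho2
          | some j =>
            have : a = v := hab
            subst this
            exact hd2 j ho2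
        · have ho1 : o1 ≠ o := fun h => ha (by rw [h])
          cases o1 with
          | none =>
            have : b = w := hab
            subst this
            exact (hd3 ho1).symm
          | some j =>
            have : b = v := hab
            subst this
            exact (hd2 j ho1).symm
        · exact hd1 o1 o2 (fun h => ha (by rw [h])) (fun h => hb (by rw [h]))
            ((haj_inr G v w m o1 o2).1 hab)
      cases o with
      | none =>
        apply key e0
        · intro o1 o2 _ _ h h'
          exact h (e0.injective h')
        · intro i _ h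
          rw [← he0] at h
          simpa using e0.injective h
        · intro h; exact absurd rfl h
      | some i =>
        apply key (fun o => match o with
          | none => e0 (some i)
          | some j => e0 (some j))
        · rintro (_ | j1) (_ | j2) h1 h2 h12 h
          · exact h12 rfl
          · have := e0.injective h
            exact h2 this.symm
          · have := e0.injective h
            exact h1 this
          · exact h12 (e0.injective h)
        · intro j _ h
          rw [← he0] at h
          simpa using e0.injective h
        · intro _ h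
          rw [← hc0vw, ← he0] at h
          simpa using e0.injective h
  · refine ⟨Sum.elim c0 e0, ?_⟩
    rintro (a | _ | i) (b | _ | j) hab h
    · exact absurd (hc0 a b hab.1 h) hab.2
    · left
      have : a = w := hab
      exact ⟨by rw [this], rfl⟩
    · exfalso
      have : a = v := hab
      subst this
      simp only [Sum.elim_inl, Sum.elim_inr] at h
      rw [← he0] at h
      simpa using e0.injective h
    · right
      have : b = w := hab
      exact ⟨rfl, by rw [this]⟩
    · exact absurd rfl (show (none : Option (Fin m)) ≠ none from hab)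
    · exfalso
      simp only [Sum.elim_inr] at h
      simpa using e0.injective h
    · exfalso
      have : b = v := hab
      subst this
      simp only [Sum.elim_inl, Sum.elim_inr] at h
      rw [← he0] at h
      simpa using e0.injective h
    · exfalso
      simp only [Sum.elim_inr] at h
      simpa using e0.injective h
    · exfalso
      simp only [Sum.elim_inr] at h
      exact (show (some i : Option (Fin m)) ≠ some j from hab) (e0.injective h)

end Pool.Agent.Ore
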